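import Pool.Agent.P.MP_29765e_al.Hom

set_option autoImplicit false
set_option linter.unusedSimpArgs false

namespace Pool.Agent.P.MP_29765e_al

/-- Derivations of a pair. -/
structure Der (P : RP) where
  dA : P.A →+ P.A
  dL : P.L →+ P.L
  mul : ∀ a b, dA (a * b) = dA a * b + a * dA b
  smul : ∀ a x, dL (a • x) = dA a • x + a • dL x
  ip : ∀ x y, dA (P.ip x y) = P.ip (dL x) y + P.ip x (dL y)
  cr : ∀ x y, dL (P.cr x y) = P.cr (dL x) y + P.cr x (dL y)

namespace Der

variable {P : RP} (d : Der P)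

theorem one : d.dA 1 = 0 := by
  have h := d.mul 1 1
  simpa using h

theorem two : d.dA 2 = 0 := by
  rw [← one_add_one_eq_two, map_add, d.one, add_zero]

theorem three : d.dA 3 = 0 := by
  rw [← two_add_one_eq_three, map_add, d.one, d.two, add_zero]

/-- Componentwise extension on scalars. -/
def extA : EA P →+ EA P where
  toFun a := ⟨d.dA a.a, d.dL a.v, d.dA a.b⟩
  map_zero' := by ext <;> simp
  map_add' a b := by ext <;> simp

/-- Componentwise extension on vectors. -/
def extL : EL P →+ EL P where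
  toFun l := ⟨d.dL l.u, d.dA l.g, d.dL l.y, d.dL l.s⟩
  map_zero' := by ext <;> simp
  map_add' a b := by ext <;> simp

@[simp] theorem extA_a (a : EA P) : (d.extA a).a = d.dA a.a := rfl
@[simp] theorem extA_v (a : EA P) : (d.extA a).v = d.dL a.v := rfl
@[simp] theorem extA_b (a : EA P) : (d.extA a).b = d.dA a.b := rfl
@[simp] theorem extL_u (l : EL P) : (d.extL l).u = d.dL l.u := rfl
@[simp] theorem extL_g (l : EL P) : (d.extL l).g = d.dA l.g := rfl
@[simp] theorem extL_y (l : EL P) : (d.extL l).y = d.dL l.y := rfl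
@[simp] theorem extL_s (l : EL P) : (d.extL l).s = d.dL l.s := rfl

theorem ext_mul (a b : EA P) : d.extA (a * b) = d.extA a * b + a * d.extA b := by
  ext
  · simp [d.mul]
  · simp only [extA_v, extA_a, EA.mul_v, EA.add_v, map_add, d.smul]; module
  · simp only [extA_v, extA_a, extA_b, EA.mul_b, EA.add_b, map_add, d.mul, d.ip, d.two]; ring

theorem ext_smul (a : EA P) (l : EL P) : d.extL (a • l) = d.extA a • l + a • d.extL l := by
  ext
  · simp [d.smul]
  · simp only [extA_v, extA_a, extL_u, extL_g, EL.smul_g, EL.add_g, map_add, d.mul, d.ip, d.two]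
    ring
  · simp only [extA_v, extA_a, extL_u, extL_y, EL.smul_y, EL.add_y, map_add, d.smul, d.cr, d.three]
    module
  · simp only [extA_v, extA_a, extA_b, extL_u, extL_y, extL_g, extL_s, EL.smul_s, EL.add_s,
      map_add, d.smul, d.mul, d.cr, d.two]
    module

theorem ext_ip (l m : EL P) :
    d.extA (EL.eip l m) = EL.eip (d.extL l) m + EL.eip l (d.extL m) := by
  ext
  · simp [d.ip]
  · simp only [extA_v, extL_u, extL_y, extL_g, EL.eip_v, EA.add_v, map_add, d.smul, d.cr]
    module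
  · simp only [extA_b, extL_u, extL_y, extL_g, extL_s, EL.eip_b, EA.add_b, map_add, map_sub,
      d.mul, d.ip]
    ring

theorem ext_cr (l m : EL P) :
    d.extL (EL.ecr l m) = EL.ecr (d.extL l) m + EL.ecr l (d.extL m) := by
  ext
  · simp [d.cr]
  · simp only [extL_u, extL_y, extL_g, EL.ecr_g, EL.add_g, map_add, map_sub, d.ip]
    ring
  · simp only [extL_u, extL_y, extL_g, EL.ecr_y, EL.add_y, map_add, map_sub, d.smul, d.cr,
      d.three]
    module
  · simp only [extL_u, extL_y, extL_g, extL_s, EL.ecr_s, EL.add_s, map_add, map_sub, d.smul, d.cr,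
      d.two]
    module

/-- Extension of a derivation killing the generic vector. -/
def ext : Der P.ext where
  dA := d.extA
  dL := d.extL
  mul := d.ext_mul
  smul := d.ext_smul
  ip := d.ext_ip
  cr := d.ext_cr

/-- Degree operator on scalars. -/
def eulA (P : RP) : EA P →+ EA P where
  toFun a := ⟨0, a.v, 2 * a.b⟩
  map_zero' := by ext <;> simp
  map_add' a b := by ext <;> simp [mul_add]

/-- Degree operator on vectors. -/
def eulL (P : RP) : EL P →+ EL P where
  toFun l := ⟨0, l.g, l.y, (2 : P.A) • l.s⟩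
  map_zero' := by ext <;> simp
  map_add' a b := by ext <;> simp

@[simp] theorem eulA_a (a : EA P) : (eulA P a).a = 0 := rfl
@[simp] theorem eulA_v (a : EA P) : (eulA P a).v = a.v := rfl
@[simp] theorem eulA_b (a : EA P) : (eulA P a).b = 2 * a.b := rfl
@[simp] theorem eulL_u (l : EL P) : (eulL P l).u = 0 := rfl
@[simp] theorem eulL_g (l : EL P) : (eulL P l).g = l.g := rfl
@[simp] theorem eulL_y (l : EL P) : (eulL P l).y = l.y := rfl
@[simp] theorem eulL_s (l : EL P) : (eulL P l).s = (2 : P.A) • l.s := rfl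

theorem eul_mul (a b : EA P) : eulA P (a * b) = eulA P a * b + a * eulA P b := by
  ext
  · simp
  · simp only [eulA_v, eulA_a, EA.mul_v, EA.add_v]; module
  · simp only [eulA_v, eulA_a, eulA_b, EA.mul_b, EA.add_b]; ring

theorem eul_smul (a : EA P) (l : EL P) : eulL P (a • l) = eulA P a • l + a • eulL P l := by
  ext
  · simp
  · simp only [eulA_v, eulA_a, eulL_u, eulL_g, EL.smul_g, EL.add_g, P.ip_zero']
    ring
  · simp only [eulA_v, eulA_a, eulL_u, eulL_y, EL.smul_y, EL.add_y, P.cr_zero']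
    module
  · simp only [eulA_v, eulA_a, eulA_b, eulL_u, eulL_y, eulL_g, eulL_s, EL.smul_s, EL.add_s]
    module

theorem eul_ip (l m : EL P) :
    eulA P (EL.eip l m) = EL.eip (eulL P l) m + EL.eip l (eulL P m) := by
  ext
  · simp [P.ip_zero, P.ip_zero']
  · simp only [eulA_v, eulL_u, eulL_y, eulL_g, EL.eip_v, EA.add_v, P.cr_zero]
    module
  · simp only [eulA_b, eulL_u, eulL_y, eulL_g, eulL_s, EL.eip_b, EA.add_b, P.ip_zero, P.ip_smul']
    ring

theorem eul_cr (l m : EL P) :
    eulL P (EL.ecr l m) = EL.ecr (eulL P l) m + EL.ecr l (eulL P m) := by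
  ext
  · simp [P.cr_zero, P.cr_zero']
  · simp only [eulL_u, eulL_y, eulL_g, EL.ecr_g, EL.add_g, P.ip_zero]
    ring
  · simp only [eulL_u, eulL_y, eulL_g, EL.ecr_y, EL.add_y, P.cr_zero]
    module
  · simp only [eulL_u, eulL_y, eulL_g, eulL_s, EL.ecr_s, EL.add_s, P.cr_zero, P.cr_smul']
    module

/-- The degree derivation in the generic vector. -/
def eul (P : RP) : Der P.ext where
  dA := eulA P
  dL := eulL P
  mul := eul_mul
  smul := eul_smul
  ip := eul_ip
  cr := eul_cr

end Der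

/-- The data carried along the tower of extensions. -/
structure Good (P : RP) where
  finA : Finite P.A
  finL : Finite P.L
  aug : P.A →+* ZMod 5
  aug_ip : ∀ x y, aug (P.ip x y) = 0
  frob : ∀ a, aug a = 0 → a ^ 5 = 0
  ι : Type
  finι : Finite ι
  E : ι → Der P
  kerA : ∀ a, aug a = 0 → (∀ i, (E i).dA a = 0) → a = 0
  kerL : ∀ x, (∀ i, (E i).dL x = 0) → x = 0

/-- Projection of scalars of the extension. -/
def prA (P : RP) : EA P →+* P.A where
  toFun a := a.a
  map_one' := rfl
  map_mul' _ _ := rfl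
  map_zero' := rfl
  map_add' _ _ := rfl

theorem EA.pow_five {P : RP} (a : EA P) (h : a.a ^ 5 = 0) : a ^ 5 = 0 := by
  have h5 : (5 : EA P) = 0 := P.ext.five
  have e : a = Hom.incA P a.a + ⟨0, a.v, a.b⟩ := by ext <;> simp [Hom.incA_apply]
  have h3 : (⟨0, a.v, a.b⟩ : EA P) ^ 3 = 0 := by
    rw [pow_succ, pow_two]; ext <;> simp [P.ip_zero]
  have h4 : Hom.incA P a.a ^ 5 = 0 := by rw [← map_pow, h, map_zero]
  rw [e]
  generalize Hom.incA P a.a = p at *
  generalize (⟨0, a.v, a.b⟩ : EA P) = q at *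
  linear_combination h4 + (10 * p ^ 2 + 5 * p * q + q ^ 2) * h3 + (p ^ 4 * q + 2 * p ^ 3 * q ^ 2) * h5

/-- The data passes to the extension. -/
def Good.ext {P : RP} (G : Good P) : Good P.ext where
  finA := by
    have := G.finA
    have := G.finL
    exact Finite.of_injective (fun a : EA P => (a.a, a.v, a.b)) (fun a b h => by
      simp only [Prod.mk.injEq] at h
      exact EA.ext h.1 h.2.1 h.2.2)
  finL := by
    have := G.finA
    have := G.finL
    exact Finite.of_injective (fun a : EL P => (a.u, a.g, a.y, a.s)) (fun a b h => by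
      simp only [Prod.mk.injEq] at h
      exact EL.ext h.1 h.2.1 h.2.2.1 h.2.2.2)
  aug := G.aug.comp (prA P)
  aug_ip x y := G.aug_ip _ _
  frob a h := EA.pow_five a (G.frob _ h)
  ι := Option G.ι
  finι := by
    have := G.finι
    infer_instance
  E i := match i with
    | none => Der.eul P
    | some j => (G.E j).ext
  kerA a h0 h := by
    have h1 : Der.eulA P a = 0 := h none
    have h2 : ∀ j, (G.E j).extA a = 0 := fun j => h (some j)
    refine EA.ext ?_ ?_ ?_
    · exact G.kerA _ h0 (fun j => congrArg EA.a (h2 j))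
    · exact (congrArg EA.v h1 :)
    · exact P.eq_zero_of_two' _ (congrArg EA.b h1)
  kerL x h := by
    have h1 : Der.eulL P x = 0 := h none
    have h2 : ∀ j, (G.E j).extL x = 0 := fun j => h (some j)
    refine EL.ext ?_ ?_ ?_ ?_
    · exact G.kerL _ (fun j => congrArg EL.u (h2 j))
    · exact (congrArg EL.g h1 :)
    · exact (congrArg EL.y h1 :)
    · exact P.eq_zero_of_two _ (congrArg EL.s h1)

/-- The pair with no vectors. -/
def base : RP where
  A := ZMod 5
  L := PUnit
  ip _ _ := 0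
  cr _ _ := 0
  five := by decide
  ip_add := by simp
  ip_smul := by simp
  ip_comm := by simp
  cr_add := by simp
  cr_smul := by simp
  cr_anti := by simp
  i1 := by simp
  i2 := by simp
  i3 := by simp

/-- The data on the pair with no vectors. -/
def baseGood : Good base where
  finA := inferInstanceAs (Finite (ZMod 5))
  finL := inferInstanceAs (Finite PUnit)
  aug := RingHom.id (ZMod 5)
  aug_ip _ _ := rfl
  frob a h := by
    have : a = 0 := h
    rw [this]; simp
  ι := Empty
  finι := inferInstance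
  E i := i.elim
  kerA _ h _ := h
  kerL _ _ := rfl

/-- The generic vector. -/
def gen (P : RP) : P.ext.L := (⟨0, 1, 0, 0⟩ : EL P)

theorem sq_gen_smul (P : RP) (x : P.L) :
    P.ext.ip (gen P) (gen P) • (Hom.inc P).fL x = (⟨0, 0, 0, x⟩ : EL P) := by
  change (EL.eip (gen P) (gen P) • (Hom.incL P x : EL P) : EL P) = _
  ext <;> simp [gen, Hom.incL_apply, P.ip_zero, P.cr_zero]

/-- Products of `2^(k+1) - 1` squares of vectors. -/
def Lev (P : RP) : ℕ → P.A → Prop
  | 0, m => ∃ y, m = P.ip y y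
  | k + 1, m => ∃ m1 m2 y, Lev P k m1 ∧ Lev P k m2 ∧ m = m1 * m2 * P.ip y y

theorem Lev.map {P Q : RP} (f : Hom P Q) : ∀ (k : ℕ) (m : P.A), Lev P k m → Lev Q k (f.fA m)
  | 0, _, ⟨y, h⟩ => ⟨f.fL y, by rw [h, f.ip]⟩
  | k + 1, _, ⟨m1, m2, y, h1, h2, h⟩ =>
    ⟨f.fA m1, f.fA m2, f.fL y, Lev.map f k _ h1, Lev.map f k _ h2, by
      rw [h, map_mul, map_mul, f.ip]⟩

theorem Lev.exists_factor {P : RP} : ∀ (k : ℕ) (m : P.A), Lev P k m → ∃ c y, m = c * P.ip y y
  | 0, _, ⟨y, h⟩ => ⟨1, y, by rw [h, one_mul]⟩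
  | _ + 1, _, ⟨m1, m2, y, _, _, h⟩ => ⟨m1 * m2, y, h⟩

theorem Lev.sq {P : RP} (k : ℕ) (m : P.A) (h : Lev P k m) : m * m = 0 := by
  obtain ⟨c, y, rfl⟩ := Lev.exists_factor k m h
  linear_combination c * c * P.sq_sq y

theorem tower (k : ℕ) : ∀ (P : RP) (_ : Good P) (x : P.L), x ≠ 0 →
    ∃ (Q : RP) (_ : Good Q) (f : Hom P Q) (m : Q.A), Lev Q k m ∧ m • f.fL x ≠ 0 := by
  induction k with
  | zero =>
    intro P G x hx
    refine ⟨P.ext, G.ext, Hom.inc P, _, ⟨gen P, rfl⟩, ?_⟩
    rw [sq_gen_smul]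
    exact fun h => hx (congrArg EL.s h)
  | succ k ih =>
    intro P G x hx
    obtain ⟨P1, G1, f1, m1, h1, n1⟩ := ih P G x hx
    obtain ⟨P2, G2, f2, m2, h2, n2⟩ := ih P1 G1 _ n1
    refine ⟨P2.ext, G2.ext, (Hom.inc P2).comp (f2.comp f1), _,
      ⟨(Hom.inc P2).fA m2, (Hom.inc P2).fA (f2.fA m1), gen P2, Lev.map _ _ _ h2,
        Lev.map _ _ _ (Lev.map _ _ _ h1), rfl⟩, ?_⟩
    have e := sq_gen_smul P2 (m2 • f2.fL (m1 • f1.fL x))
    rw [f2.smul, (Hom.inc P2).smul, (Hom.inc P2).smul] at e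
    intro h
    apply n2
    rw [f2.smul]
    have e2 : (⟨0, 0, 0, m2 • f2.fA m1 • f2.fL (f1.fL x)⟩ : EL P2) = 0 := by
      change _ • (Hom.inc P2).fL (f2.fL (f1.fL x)) = 0 at h
      rw [smul_smul, smul_smul, mul_assoc, mul_comm] at e
      exact e.symm.trans h
    exact congrArg EL.s e2

theorem exists_level (k : ℕ) :
    ∃ (Q : RP) (_ : Good Q) (m : Q.A) (x : Q.L), Lev Q k m ∧ m • x ≠ 0 := by
  have h : gen base ≠ 0 := fun h => by
    have : (1 : ZMod 5) = 0 := congrArg EL.g h
    exact absurd this (by decide)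
  obtain ⟨Q, G, f, m, h1, h2⟩ := tower k base.ext baseGood.ext _ h
  exact ⟨Q, G, m, _, h1, h2⟩

end Pool.Agent.P.MP_29765e_al
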