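import Pool.Agent.P.MP_29765e_al.Pair

set_option autoImplicit false

namespace Pool.Agent.P.MP_29765e_al

/-- Scalars after adjoining one generic vector `w`: `α + (v,w) + β (w,w)`. -/
@[ext] structure EA (P : RP) where
  a : P.A
  v : P.L
  b : P.A

/-- Vectors after adjoining one generic vector `w`: `u + g w + y × w + (w,w) s`. -/
@[ext] structure EL (P : RP) where
  u : P.L
  g : P.A
  y : P.L
  s : P.L

namespace EA

variable {P : RP}

instance : Zero (EA P) := ⟨⟨0, 0, 0⟩⟩
instance : One (EA P) := ⟨⟨1, 0, 0⟩⟩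
instance : Add (EA P) := ⟨fun x y => ⟨x.a + y.a, x.v + y.v, x.b + y.b⟩⟩
instance : Neg (EA P) := ⟨fun x => ⟨-x.a, -x.v, -x.b⟩⟩
instance : Mul (EA P) := ⟨fun x y => ⟨x.a * y.a, x.a • y.v + y.a • x.v,
  x.a * y.b + y.a * x.b + 2 * P.ip x.v y.v⟩⟩

@[simp] theorem zero_a : (0 : EA P).a = 0 := rfl
@[simp] theorem zero_v : (0 : EA P).v = 0 := rfl
@[simp] theorem zero_b : (0 : EA P).b = 0 := rfl
@[simp] theorem one_a : (1 : EA P).a = 1 := rfl
@[simp] theorem one_v : (1 : EA P).v = 0 := rfl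
@[simp] theorem one_b : (1 : EA P).b = 0 := rfl
@[simp] theorem add_a (x y : EA P) : (x + y).a = x.a + y.a := rfl
@[simp] theorem add_v (x y : EA P) : (x + y).v = x.v + y.v := rfl
@[simp] theorem add_b (x y : EA P) : (x + y).b = x.b + y.b := rfl
@[simp] theorem neg_a (x : EA P) : (-x).a = -x.a := rfl
@[simp] theorem neg_v (x : EA P) : (-x).v = -x.v := rfl
@[simp] theorem neg_b (x : EA P) : (-x).b = -x.b := rfl
@[simp] theorem mul_a (x y : EA P) : (x * y).a = x.a * y.a := rfl
@[simp] theorem mul_v (x y : EA P) : (x * y).v = x.a • y.v + y.a • x.v := rfl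
@[simp] theorem mul_b (x y : EA P) :
    (x * y).b = x.a * y.b + y.a * x.b + 2 * P.ip x.v y.v := rfl

instance : AddCommGroup (EA P) where
  add_assoc x y z := by ext <;> simp [add_assoc]
  zero_add x := by ext <;> simp
  add_zero x := by ext <;> simp
  add_comm x y := by ext <;> simp [add_comm]
  neg_add_cancel x := by ext <;> simp
  nsmul := nsmulRec
  zsmul := zsmulRec

@[simp] theorem sub_a (x y : EA P) : (x - y).a = x.a - y.a := by simp [sub_eq_add_neg]
@[simp] theorem sub_v (x y : EA P) : (x - y).v = x.v - y.v := by simp [sub_eq_add_neg]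
@[simp] theorem sub_b (x y : EA P) : (x - y).b = x.b - y.b := by simp [sub_eq_add_neg]

instance : CommRing (EA P) where
  __ := (inferInstance : AddCommGroup (EA P))
  mul_assoc x y z := by
    ext
    · simp [mul_assoc]
    · simp only [mul_a, mul_v]; module
    · simp only [mul_a, mul_v, mul_b, P.ip_add, P.ip_add', P.ip_smul, P.ip_smul']; ring
  one_mul x := by ext <;> simp [P.ip_zero]
  mul_one x := by ext <;> simp [P.ip_zero']
  zero_mul x := by ext <;> simp [P.ip_zero]
  mul_zero x := by ext <;> simp [P.ip_zero']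
  left_distrib x y z := by
    ext
    · simp [mul_add]
    · simp only [mul_v, add_v, add_a]; module
    · simp only [mul_b, add_b, add_a, add_v, P.ip_add']; ring
  right_distrib x y z := by
    ext
    · simp [add_mul]
    · simp only [mul_v, add_v, add_a]; module
    · simp only [mul_b, add_b, add_a, add_v, P.ip_add]; ring
  mul_comm x y := by
    ext
    · simp [mul_comm]
    · simp only [mul_v]; module
    · simp only [mul_b, P.ip_comm y.v x.v]; ring

theorem natCast_eq (n : ℕ) : (n : EA P) = ⟨n, 0, 0⟩ := by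
  induction n with
  | zero => simp; rfl
  | succ n ih => rw [Nat.cast_succ, ih]; ext <;> simp

@[simp] theorem ofNat_a (n : ℕ) [n.AtLeastTwo] :
    (OfNat.ofNat n : EA P).a = OfNat.ofNat n := by
  rw [← Nat.cast_ofNat, natCast_eq]; simp
@[simp] theorem ofNat_v (n : ℕ) [n.AtLeastTwo] : (OfNat.ofNat n : EA P).v = 0 := by
  rw [← Nat.cast_ofNat, natCast_eq]
@[simp] theorem ofNat_b (n : ℕ) [n.AtLeastTwo] : (OfNat.ofNat n : EA P).b = 0 := by
  rw [← Nat.cast_ofNat, natCast_eq]

end EA

namespace EL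

variable {P : RP}

instance : Zero (EL P) := ⟨⟨0, 0, 0, 0⟩⟩
instance : Add (EL P) := ⟨fun x y => ⟨x.u + y.u, x.g + y.g, x.y + y.y, x.s + y.s⟩⟩
instance : Neg (EL P) := ⟨fun x => ⟨-x.u, -x.g, -x.y, -x.s⟩⟩
instance : SMul (EA P) (EL P) := ⟨fun a l => ⟨a.a • l.u, a.a * l.g + 2 * P.ip a.v l.u,
  a.a • l.y + (3 : P.A) • P.cr a.v l.u,
  a.a • l.s + a.b • l.u + (2 * l.g) • a.v + (2 : P.A) • P.cr l.y a.v⟩⟩

@[simp] theorem zero_u : (0 : EL P).u = 0 := rfl
@[simp] theorem zero_g : (0 : EL P).g = 0 := rfl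
@[simp] theorem zero_y : (0 : EL P).y = 0 := rfl
@[simp] theorem zero_s : (0 : EL P).s = 0 := rfl
@[simp] theorem add_u (x y : EL P) : (x + y).u = x.u + y.u := rfl
@[simp] theorem add_g (x y : EL P) : (x + y).g = x.g + y.g := rfl
@[simp] theorem add_y (x y : EL P) : (x + y).y = x.y + y.y := rfl
@[simp] theorem add_s (x y : EL P) : (x + y).s = x.s + y.s := rfl
@[simp] theorem neg_u (x : EL P) : (-x).u = -x.u := rfl
@[simp] theorem neg_g (x : EL P) : (-x).g = -x.g := rfl
@[simp] theorem neg_y (x : EL P) : (-x).y = -x.y := rfl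
@[simp] theorem neg_s (x : EL P) : (-x).s = -x.s := rfl
@[simp] theorem smul_u (a : EA P) (l : EL P) : (a • l).u = a.a • l.u := rfl
@[simp] theorem smul_g (a : EA P) (l : EL P) :
    (a • l).g = a.a * l.g + 2 * P.ip a.v l.u := rfl
@[simp] theorem smul_y (a : EA P) (l : EL P) :
    (a • l).y = a.a • l.y + (3 : P.A) • P.cr a.v l.u := rfl
@[simp] theorem smul_s (a : EA P) (l : EL P) :
    (a • l).s = a.a • l.s + a.b • l.u + (2 * l.g) • a.v + (2 : P.A) • P.cr l.y a.v := rfl

instance : AddCommGroup (EL P) where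
  add_assoc x y z := by ext <;> simp [add_assoc]
  zero_add x := by ext <;> simp
  add_zero x := by ext <;> simp
  add_comm x y := by ext <;> simp [add_comm]
  neg_add_cancel x := by ext <;> simp
  nsmul := nsmulRec
  zsmul := zsmulRec

@[simp] theorem sub_u (x y : EL P) : (x - y).u = x.u - y.u := by simp [sub_eq_add_neg]
@[simp] theorem sub_g (x y : EL P) : (x - y).g = x.g - y.g := by simp [sub_eq_add_neg]
@[simp] theorem sub_y (x y : EL P) : (x - y).y = x.y - y.y := by simp [sub_eq_add_neg]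
@[simp] theorem sub_s (x y : EL P) : (x - y).s = x.s - y.s := by simp [sub_eq_add_neg]

theorem mul_smul' (a b : EA P) (l : EL P) : (a * b) • l = a • b • l := by
  ext
  · simp [mul_smul]
  · simp only [smul_g, smul_u, EA.mul_a, EA.mul_v, P.ip_add, P.ip_smul, P.ip_smul']; ring
  · simp only [smul_y, smul_u, EA.mul_a, EA.mul_v, P.cr_add, P.cr_smul, P.cr_smul']; module
  · simp only [smul_s, smul_y, smul_g, smul_u, EA.mul_a, EA.mul_v, EA.mul_b, P.cr_add, P.cr_add',
      P.cr_smul, P.cr_smul', P.i1, P.ip_comm b.v a.v, P.ip_comm l.u a.v]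
    linear_combination (norm := module) (-4 : P.A) • P.i2 a.v b.v l.u
      + (2 : P.A) • P.five_smul (P.ip a.v l.u • b.v) + P.five_smul (P.ip a.v b.v • l.u)
      - (2 : P.A) • P.five_smul (P.ip a.v b.v • l.u) + P.five_smul (P.ip a.v b.v • l.u)

instance : Module (EA P) (EL P) where
  one_smul l := by ext <;> simp [P.ip_zero, P.cr_zero, P.cr_zero']
  mul_smul := mul_smul'
  smul_zero a := by ext <;> simp [P.ip_zero', P.cr_zero, P.cr_zero']
  smul_add a l m := by
    ext
    · simp
    · simp only [smul_g, add_g, add_u, P.ip_add']; ring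
    · simp only [smul_y, add_y, add_u, P.cr_add']; module
    · simp only [smul_s, add_s, add_y, add_u, add_g, P.cr_add]; module
  add_smul a b l := by
    ext
    · simp [add_smul]
    · simp only [smul_g, add_g, EA.add_a, EA.add_v, P.ip_add]; ring
    · simp only [smul_y, add_y, EA.add_a, EA.add_v, P.cr_add]; module
    · simp only [smul_s, add_s, EA.add_a, EA.add_v, EA.add_b, P.cr_add']; module
  zero_smul l := by ext <;> simp [P.ip_zero, P.cr_zero, P.cr_zero']

/-- Inner product on the extension. -/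
def eip (l m : EL P) : EA P :=
  ⟨P.ip l.u m.u, m.g • l.u + l.g • m.u + P.cr l.u m.y + P.cr m.u l.y,
    P.ip l.u m.s + P.ip m.u l.s + l.g * m.g - P.ip l.y m.y⟩

/-- Cross product on the extension. -/
def ecr (l m : EL P) : EL P :=
  ⟨P.cr l.u m.u, P.ip l.u m.y - P.ip m.u l.y,
    m.g • l.u - l.g • m.u + (3 : P.A) • P.cr l.u m.y - (3 : P.A) • P.cr m.u l.y,
    P.cr l.u m.s - P.cr m.u l.s - l.g • m.y + m.g • l.y + (2 : P.A) • P.cr l.y m.y⟩

@[simp] theorem eip_a (l m : EL P) : (eip l m).a = P.ip l.u m.u := rfl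
@[simp] theorem eip_v (l m : EL P) :
    (eip l m).v = m.g • l.u + l.g • m.u + P.cr l.u m.y + P.cr m.u l.y := rfl
@[simp] theorem eip_b (l m : EL P) :
    (eip l m).b = P.ip l.u m.s + P.ip m.u l.s + l.g * m.g - P.ip l.y m.y := rfl
@[simp] theorem ecr_u (l m : EL P) : (ecr l m).u = P.cr l.u m.u := rfl
@[simp] theorem ecr_g (l m : EL P) : (ecr l m).g = P.ip l.u m.y - P.ip m.u l.y := rfl
@[simp] theorem ecr_y (l m : EL P) : (ecr l m).y =
    m.g • l.u - l.g • m.u + (3 : P.A) • P.cr l.u m.y - (3 : P.A) • P.cr m.u l.y := rfl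
@[simp] theorem ecr_s (l m : EL P) : (ecr l m).s =
    P.cr l.u m.s - P.cr m.u l.s - l.g • m.y + m.g • l.y + (2 : P.A) • P.cr l.y m.y := rfl

end EL

end Pool.Agent.P.MP_29765e_al
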