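import Pool.Agent.P.MP_29765e_al.ExtA

set_option autoImplicit false
set_option linter.unusedSimpArgs false

namespace Pool.Agent.P.MP_29765e_al

namespace EL

variable {P : RP}

theorem eip_smul (a1 : EA P) (l2 l3 : EL P) :
    eip (a1 • l2) l3 = a1 * eip l2 l3 := by
  ext
  all_goals simp only [
      EA.mul_a, EA.mul_v, EA.mul_b, smul_u, smul_g, smul_y, smul_s, add_u, add_g, add_y, add_s,
      sub_u, sub_g, sub_y, sub_s, zero_u, zero_g, zero_y, zero_s, eip_a, eip_v, eip_b, ecr_u,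
      ecr_g, ecr_y, ecr_s, P.ip_add, P.ip_add', P.ip_sub, P.ip_sub', P.ip_smul, P.ip_smul',
      P.ip_neg, P.ip_neg', P.cr_add, P.cr_add', P.cr_sub, P.cr_sub', P.cr_smul, P.cr_smul',
      P.cr_neg, P.cr_neg', P.i1, P.i1', P.i3, P.ip_comm l2.u a1.v, P.cr_anti l2.u a1.v,
      P.ip_comm l2.y a1.v, P.cr_anti l2.y a1.v, P.ip_comm l2.s a1.v, P.cr_anti l2.s a1.v,
      P.ip_comm l3.u a1.v, P.cr_anti l3.u a1.v, P.ip_comm l3.y a1.v, P.cr_anti l3.y a1.v,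
      P.ip_comm l3.s a1.v, P.cr_anti l3.s a1.v, P.ip_comm l3.u l2.u, P.cr_anti l3.u l2.u,
      P.ip_comm l3.y l2.u, P.cr_anti l3.y l2.u, P.ip_comm l3.s l2.u, P.cr_anti l3.s l2.u,
      P.ip_comm l3.u l2.y, P.cr_anti l3.u l2.y, P.ip_comm l3.y l2.y, P.cr_anti l3.y l2.y,
      P.ip_comm l3.s l2.y, P.cr_anti l3.s l2.y, P.ip_comm l3.u l2.s, P.cr_anti l3.u l2.s,
      P.ip_comm l3.y l2.s, P.cr_anti l3.y l2.s, P.ip_comm l3.s l2.s, P.cr_anti l3.s l2.s,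
      P.t_swap a1.v l2.u l3.u, P.t_cyc a1.v l2.u l3.u, P.t_swap a1.v l2.u l3.y,
      P.t_cyc a1.v l2.u l3.y, P.t_swap a1.v l2.u l3.s, P.t_cyc a1.v l2.u l3.s,
      P.t_swap a1.v l2.y l3.u, P.t_cyc a1.v l2.y l3.u, P.t_swap a1.v l2.y l3.y,
      P.t_cyc a1.v l2.y l3.y, P.t_swap a1.v l2.y l3.s, P.t_cyc a1.v l2.y l3.s,
      P.t_swap a1.v l2.s l3.u, P.t_cyc a1.v l2.s l3.u, P.t_swap a1.v l2.s l3.y,
      P.t_cyc a1.v l2.s l3.y, P.t_swap a1.v l2.s l3.s, P.t_cyc a1.v l2.s l3.s]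
  · linear_combination (norm := module)
      ((2 : P.A) * 1) • P.i2 a1.v l2.u l3.u
      + (-1 : P.A) • P.five_smul ((P.ip a1.v l3.u) • l2.u)
  · linear_combination
      (-1 : P.A) * (P.ip a1.v (P.cr l2.u l3.y)) * P.five

theorem ecr_smul (a1 : EA P) (l2 l3 : EL P) :
    ecr (a1 • l2) l3 = a1 • ecr l2 l3 := by
  ext
  all_goals simp only [
      EA.mul_a, EA.mul_v, EA.mul_b, smul_u, smul_g, smul_y, smul_s, add_u, add_g, add_y, add_s,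
      sub_u, sub_g, sub_y, sub_s, zero_u, zero_g, zero_y, zero_s, eip_a, eip_v, eip_b, ecr_u,
      ecr_g, ecr_y, ecr_s, P.ip_add, P.ip_add', P.ip_sub, P.ip_sub', P.ip_smul, P.ip_smul',
      P.ip_neg, P.ip_neg', P.cr_add, P.cr_add', P.cr_sub, P.cr_sub', P.cr_smul, P.cr_smul',
      P.cr_neg, P.cr_neg', P.i1, P.i1', P.i3, P.ip_comm l2.u a1.v, P.cr_anti l2.u a1.v,
      P.ip_comm l2.y a1.v, P.cr_anti l2.y a1.v, P.ip_comm l2.s a1.v, P.cr_anti l2.s a1.v,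
      P.ip_comm l3.u a1.v, P.cr_anti l3.u a1.v, P.ip_comm l3.y a1.v, P.cr_anti l3.y a1.v,
      P.ip_comm l3.s a1.v, P.cr_anti l3.s a1.v, P.ip_comm l3.u l2.u, P.cr_anti l3.u l2.u,
      P.ip_comm l3.y l2.u, P.cr_anti l3.y l2.u, P.ip_comm l3.s l2.u, P.cr_anti l3.s l2.u,
      P.ip_comm l3.u l2.y, P.cr_anti l3.u l2.y, P.ip_comm l3.y l2.y, P.cr_anti l3.y l2.y,
      P.ip_comm l3.s l2.y, P.cr_anti l3.s l2.y, P.ip_comm l3.u l2.s, P.cr_anti l3.u l2.s,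
      P.ip_comm l3.y l2.s, P.cr_anti l3.y l2.s, P.ip_comm l3.s l2.s, P.cr_anti l3.s l2.s,
      P.t_swap a1.v l2.u l3.u, P.t_cyc a1.v l2.u l3.u, P.t_swap a1.v l2.u l3.y,
      P.t_cyc a1.v l2.u l3.y, P.t_swap a1.v l2.u l3.s, P.t_cyc a1.v l2.u l3.s,
      P.t_swap a1.v l2.y l3.u, P.t_cyc a1.v l2.y l3.u, P.t_swap a1.v l2.y l3.y,
      P.t_cyc a1.v l2.y l3.y, P.t_swap a1.v l2.y l3.s, P.t_cyc a1.v l2.y l3.s,
      P.t_swap a1.v l2.s l3.u, P.t_cyc a1.v l2.s l3.u, P.t_swap a1.v l2.s l3.y,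
      P.t_cyc a1.v l2.s l3.y, P.t_swap a1.v l2.s l3.s, P.t_cyc a1.v l2.s l3.s]
  · linear_combination
      (-1 : P.A) * (P.ip a1.v (P.cr l2.u l3.u)) * P.five
  · linear_combination (norm := module)
      ((1 : P.A) * 1) • P.i2 a1.v l2.u l3.u
      + (1 : P.A) • P.five_smul ((P.ip a1.v l3.u) • l2.u)
      + (-2 : P.A) • P.five_smul ((P.ip l2.u l3.u) • a1.v)
  · linear_combination (norm := module)
      ((-8 : P.A) * 1) • P.i2 a1.v l2.u l3.y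
      + ((-6 : P.A) * 1) • P.i2 a1.v l2.y l3.u
      + (2 : P.A) • P.five_smul ((P.ip a1.v l3.u) • l2.y)
      + (2 : P.A) • P.five_smul ((P.ip l2.y l3.u) • a1.v)
      + (1 : P.A) • P.five_smul ((l3.g) • P.cr a1.v l2.u)
      + (4 : P.A) • P.five_smul ((P.ip a1.v l3.y) • l2.u)

theorem e_i1 (l1 l2 l3 : EL P) :
    ecr (ecr l1 l2) l3 = eip l1 l3 • l2 - eip l2 l3 • l1 := by
  ext
  all_goals simp only [
      EA.mul_a, EA.mul_v, EA.mul_b, smul_u, smul_g, smul_y, smul_s, add_u, add_g, add_y, add_s,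
      sub_u, sub_g, sub_y, sub_s, zero_u, zero_g, zero_y, zero_s, eip_a, eip_v, eip_b, ecr_u,
      ecr_g, ecr_y, ecr_s, P.ip_add, P.ip_add', P.ip_sub, P.ip_sub', P.ip_smul, P.ip_smul',
      P.ip_neg, P.ip_neg', P.cr_add, P.cr_add', P.cr_sub, P.cr_sub', P.cr_smul, P.cr_smul',
      P.cr_neg, P.cr_neg', P.i1, P.i1', P.i3, P.ip_comm l2.u l1.u, P.cr_anti l2.u l1.u,
      P.ip_comm l2.y l1.u, P.cr_anti l2.y l1.u, P.ip_comm l2.s l1.u, P.cr_anti l2.s l1.u,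
      P.ip_comm l2.u l1.y, P.cr_anti l2.u l1.y, P.ip_comm l2.y l1.y, P.cr_anti l2.y l1.y,
      P.ip_comm l2.s l1.y, P.cr_anti l2.s l1.y, P.ip_comm l2.u l1.s, P.cr_anti l2.u l1.s,
      P.ip_comm l2.y l1.s, P.cr_anti l2.y l1.s, P.ip_comm l2.s l1.s, P.cr_anti l2.s l1.s,
      P.ip_comm l3.u l1.u, P.cr_anti l3.u l1.u, P.ip_comm l3.y l1.u, P.cr_anti l3.y l1.u,
      P.ip_comm l3.s l1.u, P.cr_anti l3.s l1.u, P.ip_comm l3.u l1.y, P.cr_anti l3.u l1.y,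
      P.ip_comm l3.y l1.y, P.cr_anti l3.y l1.y, P.ip_comm l3.s l1.y, P.cr_anti l3.s l1.y,
      P.ip_comm l3.u l1.s, P.cr_anti l3.u l1.s, P.ip_comm l3.y l1.s, P.cr_anti l3.y l1.s,
      P.ip_comm l3.s l1.s, P.cr_anti l3.s l1.s, P.ip_comm l3.u l2.u, P.cr_anti l3.u l2.u,
      P.ip_comm l3.y l2.u, P.cr_anti l3.y l2.u, P.ip_comm l3.s l2.u, P.cr_anti l3.s l2.u,
      P.ip_comm l3.u l2.y, P.cr_anti l3.u l2.y, P.ip_comm l3.y l2.y, P.cr_anti l3.y l2.y,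
      P.ip_comm l3.s l2.y, P.cr_anti l3.s l2.y, P.ip_comm l3.u l2.s, P.cr_anti l3.u l2.s,
      P.ip_comm l3.y l2.s, P.cr_anti l3.y l2.s, P.ip_comm l3.s l2.s, P.cr_anti l3.s l2.s,
      P.t_swap l1.u l2.u l3.u, P.t_cyc l1.u l2.u l3.u, P.t_swap l1.u l2.u l3.y,
      P.t_cyc l1.u l2.u l3.y, P.t_swap l1.u l2.u l3.s, P.t_cyc l1.u l2.u l3.s,
      P.t_swap l1.u l2.y l3.u, P.t_cyc l1.u l2.y l3.u, P.t_swap l1.u l2.y l3.y,
      P.t_cyc l1.u l2.y l3.y, P.t_swap l1.u l2.y l3.s, P.t_cyc l1.u l2.y l3.s,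
      P.t_swap l1.u l2.s l3.u, P.t_cyc l1.u l2.s l3.u, P.t_swap l1.u l2.s l3.y,
      P.t_cyc l1.u l2.s l3.y, P.t_swap l1.u l2.s l3.s, P.t_cyc l1.u l2.s l3.s,
      P.t_swap l1.y l2.u l3.u, P.t_cyc l1.y l2.u l3.u, P.t_swap l1.y l2.u l3.y,
      P.t_cyc l1.y l2.u l3.y, P.t_swap l1.y l2.u l3.s, P.t_cyc l1.y l2.u l3.s,
      P.t_swap l1.y l2.y l3.u, P.t_cyc l1.y l2.y l3.u, P.t_swap l1.y l2.y l3.y,
      P.t_cyc l1.y l2.y l3.y, P.t_swap l1.y l2.y l3.s, P.t_cyc l1.y l2.y l3.s,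
      P.t_swap l1.y l2.s l3.u, P.t_cyc l1.y l2.s l3.u, P.t_swap l1.y l2.s l3.y,
      P.t_cyc l1.y l2.s l3.y, P.t_swap l1.y l2.s l3.s, P.t_cyc l1.y l2.s l3.s,
      P.t_swap l1.s l2.u l3.u, P.t_cyc l1.s l2.u l3.u, P.t_swap l1.s l2.u l3.y,
      P.t_cyc l1.s l2.u l3.y, P.t_swap l1.s l2.u l3.s, P.t_cyc l1.s l2.u l3.s,
      P.t_swap l1.s l2.y l3.u, P.t_cyc l1.s l2.y l3.u, P.t_swap l1.s l2.y l3.y,
      P.t_cyc l1.s l2.y l3.y, P.t_swap l1.s l2.y l3.s, P.t_cyc l1.s l2.y l3.s,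
      P.t_swap l1.s l2.s l3.u, P.t_cyc l1.s l2.s l3.u, P.t_swap l1.s l2.s l3.y,
      P.t_cyc l1.s l2.s l3.y, P.t_swap l1.s l2.s l3.s, P.t_cyc l1.s l2.s l3.s]
  · linear_combination
      (1 : P.A) * (P.ip l1.u (P.cr l2.u l3.y)) * P.five
      + (-1 : P.A) * (P.ip l1.u (P.cr l2.y l3.u)) * P.five
      + (-1 : P.A) * (P.ip l1.y (P.cr l2.u l3.u)) * P.five
  · linear_combination (norm := module)
      ((-4 : P.A) * 1) • P.i2 l1.u l2.y l3.u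
      + ((4 : P.A) * 1) • P.i2 l1.y l2.u l3.u
      + (-1 : P.A) • P.five_smul ((l3.g) • P.cr l1.u l2.u)
      + (3 : P.A) • P.five_smul ((P.ip l1.u l3.u) • l2.y)
      + (-1 : P.A) • P.five_smul ((P.ip l2.y l3.u) • l1.u)
      + (1 : P.A) • P.five_smul ((P.ip l1.y l3.u) • l2.u)
      + (-3 : P.A) • P.five_smul ((P.ip l2.u l3.u) • l1.y)
  · linear_combination (norm := module)
      ((1 : P.A) * 1) • P.i2 l1.u l2.y l3.y
      + ((-1 : P.A) * 1) • P.i2 l1.y l2.u l3.y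
      + (-1 : P.A) • P.five_smul ((l1.g) • P.cr l2.y l3.u)
      + (1 : P.A) • P.five_smul ((l2.g) • P.cr l1.y l3.u)
      + (1 : P.A) • P.five_smul ((l3.g) • P.cr l1.u l2.y)
      + (1 : P.A) • P.five_smul ((l3.g) • P.cr l1.y l2.u)
      + (1 : P.A) • P.five_smul ((P.ip l1.u l3.y) • l2.y)
      + (-2 : P.A) • P.five_smul ((P.ip l2.y l3.y) • l1.u)
      + (2 : P.A) • P.five_smul ((P.ip l1.y l3.y) • l2.u)
      + (-1 : P.A) • P.five_smul ((P.ip l2.u l3.y) • l1.y)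

theorem e_i2 (l1 l2 l3 : EL P) :
    eip l1 l2 • l3 + eip l2 l3 • l1 + eip l1 l3 • l2 = 0 := by
  ext
  all_goals simp only [
      EA.mul_a, EA.mul_v, EA.mul_b, smul_u, smul_g, smul_y, smul_s, add_u, add_g, add_y, add_s,
      sub_u, sub_g, sub_y, sub_s, zero_u, zero_g, zero_y, zero_s, eip_a, eip_v, eip_b, ecr_u,
      ecr_g, ecr_y, ecr_s, P.ip_add, P.ip_add', P.ip_sub, P.ip_sub', P.ip_smul, P.ip_smul',
      P.ip_neg, P.ip_neg', P.cr_add, P.cr_add', P.cr_sub, P.cr_sub', P.cr_smul, P.cr_smul',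
      P.cr_neg, P.cr_neg', P.i1, P.i1', P.i3, P.ip_comm l2.u l1.u, P.cr_anti l2.u l1.u,
      P.ip_comm l2.y l1.u, P.cr_anti l2.y l1.u, P.ip_comm l2.s l1.u, P.cr_anti l2.s l1.u,
      P.ip_comm l2.u l1.y, P.cr_anti l2.u l1.y, P.ip_comm l2.y l1.y, P.cr_anti l2.y l1.y,
      P.ip_comm l2.s l1.y, P.cr_anti l2.s l1.y, P.ip_comm l2.u l1.s, P.cr_anti l2.u l1.s,
      P.ip_comm l2.y l1.s, P.cr_anti l2.y l1.s, P.ip_comm l2.s l1.s, P.cr_anti l2.s l1.s,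
      P.ip_comm l3.u l1.u, P.cr_anti l3.u l1.u, P.ip_comm l3.y l1.u, P.cr_anti l3.y l1.u,
      P.ip_comm l3.s l1.u, P.cr_anti l3.s l1.u, P.ip_comm l3.u l1.y, P.cr_anti l3.u l1.y,
      P.ip_comm l3.y l1.y, P.cr_anti l3.y l1.y, P.ip_comm l3.s l1.y, P.cr_anti l3.s l1.y,
      P.ip_comm l3.u l1.s, P.cr_anti l3.u l1.s, P.ip_comm l3.y l1.s, P.cr_anti l3.y l1.s,
      P.ip_comm l3.s l1.s, P.cr_anti l3.s l1.s, P.ip_comm l3.u l2.u, P.cr_anti l3.u l2.u,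
      P.ip_comm l3.y l2.u, P.cr_anti l3.y l2.u, P.ip_comm l3.s l2.u, P.cr_anti l3.s l2.u,
      P.ip_comm l3.u l2.y, P.cr_anti l3.u l2.y, P.ip_comm l3.y l2.y, P.cr_anti l3.y l2.y,
      P.ip_comm l3.s l2.y, P.cr_anti l3.s l2.y, P.ip_comm l3.u l2.s, P.cr_anti l3.u l2.s,
      P.ip_comm l3.y l2.s, P.cr_anti l3.y l2.s, P.ip_comm l3.s l2.s, P.cr_anti l3.s l2.s,
      P.t_swap l1.u l2.u l3.u, P.t_cyc l1.u l2.u l3.u, P.t_swap l1.u l2.u l3.y,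
      P.t_cyc l1.u l2.u l3.y, P.t_swap l1.u l2.u l3.s, P.t_cyc l1.u l2.u l3.s,
      P.t_swap l1.u l2.y l3.u, P.t_cyc l1.u l2.y l3.u, P.t_swap l1.u l2.y l3.y,
      P.t_cyc l1.u l2.y l3.y, P.t_swap l1.u l2.y l3.s, P.t_cyc l1.u l2.y l3.s,
      P.t_swap l1.u l2.s l3.u, P.t_cyc l1.u l2.s l3.u, P.t_swap l1.u l2.s l3.y,
      P.t_cyc l1.u l2.s l3.y, P.t_swap l1.u l2.s l3.s, P.t_cyc l1.u l2.s l3.s,
      P.t_swap l1.y l2.u l3.u, P.t_cyc l1.y l2.u l3.u, P.t_swap l1.y l2.u l3.y,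
      P.t_cyc l1.y l2.u l3.y, P.t_swap l1.y l2.u l3.s, P.t_cyc l1.y l2.u l3.s,
      P.t_swap l1.y l2.y l3.u, P.t_cyc l1.y l2.y l3.u, P.t_swap l1.y l2.y l3.y,
      P.t_cyc l1.y l2.y l3.y, P.t_swap l1.y l2.y l3.s, P.t_cyc l1.y l2.y l3.s,
      P.t_swap l1.y l2.s l3.u, P.t_cyc l1.y l2.s l3.u, P.t_swap l1.y l2.s l3.y,
      P.t_cyc l1.y l2.s l3.y, P.t_swap l1.y l2.s l3.s, P.t_cyc l1.y l2.s l3.s,
      P.t_swap l1.s l2.u l3.u, P.t_cyc l1.s l2.u l3.u, P.t_swap l1.s l2.u l3.y,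
      P.t_cyc l1.s l2.u l3.y, P.t_swap l1.s l2.u l3.s, P.t_cyc l1.s l2.u l3.s,
      P.t_swap l1.s l2.y l3.u, P.t_cyc l1.s l2.y l3.u, P.t_swap l1.s l2.y l3.y,
      P.t_cyc l1.s l2.y l3.y, P.t_swap l1.s l2.y l3.s, P.t_cyc l1.s l2.y l3.s,
      P.t_swap l1.s l2.s l3.u, P.t_cyc l1.s l2.s l3.u, P.t_swap l1.s l2.s l3.y,
      P.t_cyc l1.s l2.s l3.y, P.t_swap l1.s l2.s l3.s, P.t_cyc l1.s l2.s l3.s]
  · linear_combination (norm := module)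
      ((1 : P.A) * 1) • P.i2 l1.u l2.u l3.u
  · linear_combination
      (1 : P.A) * (l3.g * P.ip l1.u l2.u) * P.five
      + (1 : P.A) * (l2.g * P.ip l1.u l3.u) * P.five
      + (1 : P.A) * (l1.g * P.ip l2.u l3.u) * P.five
  · linear_combination (norm := module)
      ((7 : P.A) * 1) • P.i2 l1.u l2.u l3.y
      + ((-3 : P.A) * 1) • P.i2 l1.u l2.y l3.u
      + ((-3 : P.A) * 1) • P.i2 l1.y l2.u l3.u
      + (2 : P.A) • P.five_smul ((P.ip l1.u l3.u) • l2.y)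
      + (2 : P.A) • P.five_smul ((P.ip l2.u l3.u) • l1.y)
      + (-2 : P.A) • P.five_smul ((P.ip l1.u l3.y) • l2.u)
      + (-2 : P.A) • P.five_smul ((P.ip l2.u l3.y) • l1.u)
  · linear_combination (norm := module)
      ((1 : P.A) * 1) • P.i2 l1.u l2.u l3.s
      + ((1 : P.A) * 1) • P.i2 l1.u l2.s l3.u
      + ((1 : P.A) * 1) • P.i2 l1.s l2.u l3.u
      + ((3 : P.A) * 1) • P.i2 l1.y l2.y l3.u
      + ((-2 : P.A) * 1) • P.i2 l1.y l2.u l3.y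
      + ((-2 : P.A) * 1) • P.i2 l1.u l2.y l3.y
      + (1 : P.A) • P.five_smul ((l1.g * l2.g) • l3.u)
      + (1 : P.A) • P.five_smul ((l2.g * l3.g) • l1.u)
      + (1 : P.A) • P.five_smul ((l1.g * l3.g) • l2.u)
      + (1 : P.A) • P.five_smul ((P.ip l2.y l3.y) • l1.u)
      + (1 : P.A) • P.five_smul ((P.ip l1.y l3.y) • l2.u)
      + (-1 : P.A) • P.five_smul ((P.ip l1.y l3.u) • l2.y)
      + (-1 : P.A) • P.five_smul ((P.ip l2.y l3.u) • l1.y)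

theorem e_i3 (l1 l2 l3 : EL P) :
    eip (ecr l1 l2) l3 = eip l1 (ecr l2 l3) := by
  ext
  all_goals simp only [
      EA.mul_a, EA.mul_v, EA.mul_b, smul_u, smul_g, smul_y, smul_s, add_u, add_g, add_y, add_s,
      sub_u, sub_g, sub_y, sub_s, zero_u, zero_g, zero_y, zero_s, eip_a, eip_v, eip_b, ecr_u,
      ecr_g, ecr_y, ecr_s, P.ip_add, P.ip_add', P.ip_sub, P.ip_sub', P.ip_smul, P.ip_smul',
      P.ip_neg, P.ip_neg', P.cr_add, P.cr_add', P.cr_sub, P.cr_sub', P.cr_smul, P.cr_smul',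
      P.cr_neg, P.cr_neg', P.i1, P.i1', P.i3, P.ip_comm l2.u l1.u, P.cr_anti l2.u l1.u,
      P.ip_comm l2.y l1.u, P.cr_anti l2.y l1.u, P.ip_comm l2.s l1.u, P.cr_anti l2.s l1.u,
      P.ip_comm l2.u l1.y, P.cr_anti l2.u l1.y, P.ip_comm l2.y l1.y, P.cr_anti l2.y l1.y,
      P.ip_comm l2.s l1.y, P.cr_anti l2.s l1.y, P.ip_comm l2.u l1.s, P.cr_anti l2.u l1.s,
      P.ip_comm l2.y l1.s, P.cr_anti l2.y l1.s, P.ip_comm l2.s l1.s, P.cr_anti l2.s l1.s,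
      P.ip_comm l3.u l1.u, P.cr_anti l3.u l1.u, P.ip_comm l3.y l1.u, P.cr_anti l3.y l1.u,
      P.ip_comm l3.s l1.u, P.cr_anti l3.s l1.u, P.ip_comm l3.u l1.y, P.cr_anti l3.u l1.y,
      P.ip_comm l3.y l1.y, P.cr_anti l3.y l1.y, P.ip_comm l3.s l1.y, P.cr_anti l3.s l1.y,
      P.ip_comm l3.u l1.s, P.cr_anti l3.u l1.s, P.ip_comm l3.y l1.s, P.cr_anti l3.y l1.s,
      P.ip_comm l3.s l1.s, P.cr_anti l3.s l1.s, P.ip_comm l3.u l2.u, P.cr_anti l3.u l2.u,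
      P.ip_comm l3.y l2.u, P.cr_anti l3.y l2.u, P.ip_comm l3.s l2.u, P.cr_anti l3.s l2.u,
      P.ip_comm l3.u l2.y, P.cr_anti l3.u l2.y, P.ip_comm l3.y l2.y, P.cr_anti l3.y l2.y,
      P.ip_comm l3.s l2.y, P.cr_anti l3.s l2.y, P.ip_comm l3.u l2.s, P.cr_anti l3.u l2.s,
      P.ip_comm l3.y l2.s, P.cr_anti l3.y l2.s, P.ip_comm l3.s l2.s, P.cr_anti l3.s l2.s,
      P.t_swap l1.u l2.u l3.u, P.t_cyc l1.u l2.u l3.u, P.t_swap l1.u l2.u l3.y,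
      P.t_cyc l1.u l2.u l3.y, P.t_swap l1.u l2.u l3.s, P.t_cyc l1.u l2.u l3.s,
      P.t_swap l1.u l2.y l3.u, P.t_cyc l1.u l2.y l3.u, P.t_swap l1.u l2.y l3.y,
      P.t_cyc l1.u l2.y l3.y, P.t_swap l1.u l2.y l3.s, P.t_cyc l1.u l2.y l3.s,
      P.t_swap l1.u l2.s l3.u, P.t_cyc l1.u l2.s l3.u, P.t_swap l1.u l2.s l3.y,
      P.t_cyc l1.u l2.s l3.y, P.t_swap l1.u l2.s l3.s, P.t_cyc l1.u l2.s l3.s,
      P.t_swap l1.y l2.u l3.u, P.t_cyc l1.y l2.u l3.u, P.t_swap l1.y l2.u l3.y,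
      P.t_cyc l1.y l2.u l3.y, P.t_swap l1.y l2.u l3.s, P.t_cyc l1.y l2.u l3.s,
      P.t_swap l1.y l2.y l3.u, P.t_cyc l1.y l2.y l3.u, P.t_swap l1.y l2.y l3.y,
      P.t_cyc l1.y l2.y l3.y, P.t_swap l1.y l2.y l3.s, P.t_cyc l1.y l2.y l3.s,
      P.t_swap l1.y l2.s l3.u, P.t_cyc l1.y l2.s l3.u, P.t_swap l1.y l2.s l3.y,
      P.t_cyc l1.y l2.s l3.y, P.t_swap l1.y l2.s l3.s, P.t_cyc l1.y l2.s l3.s,
      P.t_swap l1.s l2.u l3.u, P.t_cyc l1.s l2.u l3.u, P.t_swap l1.s l2.u l3.y,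
      P.t_cyc l1.s l2.u l3.y, P.t_swap l1.s l2.u l3.s, P.t_cyc l1.s l2.u l3.s,
      P.t_swap l1.s l2.y l3.u, P.t_cyc l1.s l2.y l3.u, P.t_swap l1.s l2.y l3.y,
      P.t_cyc l1.s l2.y l3.y, P.t_swap l1.s l2.y l3.s, P.t_cyc l1.s l2.y l3.s,
      P.t_swap l1.s l2.s l3.u, P.t_cyc l1.s l2.s l3.u, P.t_swap l1.s l2.s l3.y,
      P.t_cyc l1.s l2.s l3.y, P.t_swap l1.s l2.s l3.s, P.t_cyc l1.s l2.s l3.s]
  · linear_combination (norm := module)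
      ((4 : P.A) * 1) • P.i2 l1.u l2.y l3.u
      + ((-2 : P.A) * 1) • P.i2 l1.y l2.u l3.u
      + ((3 : P.A) * 1) • P.i2 l1.u l2.u l3.y
      + (-1 : P.A) • P.five_smul ((P.ip l1.u l3.y) • l2.u)
      + (-1 : P.A) • P.five_smul ((P.ip l2.u l3.y) • l1.u)
      + (-2 : P.A) • P.five_smul ((P.ip l1.u l3.u) • l2.y)
      + (1 : P.A) • P.five_smul ((P.ip l2.u l3.u) • l1.y)
  · linear_combination
      (1 : P.A) * (P.ip l1.y (P.cr l2.y l3.u)) * P.five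
      + (-1 : P.A) * (P.ip l1.u (P.cr l2.y l3.y)) * P.five


theorem eip_add (l1 l2 l3 : EL P) : eip (l1 + l2) l3 = eip l1 l3 + eip l2 l3 := by
  ext
  · simp [P.ip_add]
  · simp only [eip_v, EA.add_v, add_u, add_g, add_y, P.cr_add, P.cr_add']; module
  · simp only [eip_b, EA.add_b, add_u, add_g, add_y, add_s, P.ip_add, P.ip_add']; ring

theorem ecr_add (l1 l2 l3 : EL P) : ecr (l1 + l2) l3 = ecr l1 l3 + ecr l2 l3 := by
  ext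
  · simp [P.cr_add]
  · simp only [ecr_g, add_u, add_g, add_y, P.ip_add, P.ip_add']; ring
  · simp only [ecr_y, add_u, add_g, add_y, P.cr_add, P.cr_add']; module
  · simp only [ecr_s, add_u, add_g, add_y, add_s, P.cr_add, P.cr_add']; module

theorem eip_comm (l1 l2 : EL P) : eip l1 l2 = eip l2 l1 := by
  ext
  · simp [P.ip_comm l2.u l1.u]
  · simp only [eip_v]; module
  · simp only [eip_b, P.ip_comm l2.y l1.y]; ring

theorem ecr_anti (l1 l2 : EL P) : ecr l1 l2 = - ecr l2 l1 := by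
  ext
  · simp [P.cr_anti l2.u l1.u]
  · simp only [ecr_g, neg_g]; ring
  · simp only [ecr_y, neg_y]; module
  · simp only [ecr_s, neg_s, P.cr_anti l2.y l1.y]; module

end EL

/-- The pair obtained by adjoining one generic vector. -/
def RP.ext (P : RP) : RP where
  A := EA P
  L := EL P
  ip := EL.eip
  cr := EL.ecr
  five := by
    have h := EA.natCast_eq (P := P) 5
    rw [Nat.cast_ofNat] at h
    rw [h]; ext
    · simpa using P.five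
    · rfl
    · rfl
  ip_add := EL.eip_add
  ip_smul := EL.eip_smul
  ip_comm := EL.eip_comm
  cr_add := EL.ecr_add
  cr_smul := EL.ecr_smul
  cr_anti := EL.ecr_anti
  i1 := EL.e_i1
  i2 := EL.e_i2
  i3 := EL.e_i3

end Pool.Agent.P.MP_29765e_al
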