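import Pool.Agent.P.MP_29765e_al.Quat

set_option autoImplicit false
set_option linter.unusedSimpArgs false

namespace Pool.Agent.P.MP_29765e_al

variable {P : RP}

/-- The substitution sending the generic vector `x` to `x + w` with `w` a new generic vector. -/
def sub (P : RP) : Hom P.ext P.ext.ext :=
  Hom.ev ((Hom.inc P.ext).comp (Hom.inc P)) ((Hom.inc P.ext).fL (gen P) + gen P.ext)

/-- The substitution on units. -/
def subU (P : RP) : (H P.ext)ˣ →* (H P.ext.ext)ˣ := Units.map (H.map (sub P)).toMonoidHom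

theorem subU_val (g : (H P.ext)ˣ) : (subU P g : H P.ext.ext) = H.map (sub P) g := rfl

theorem subU_inv_val (g : (H P.ext)ˣ) :
    ((subU P g)⁻¹ : (H P.ext.ext)ˣ) = (H.map (sub P) (↑g⁻¹ : H P.ext) : H P.ext.ext) := by
  rw [← map_inv]; rfl

/-- First one-cocycle. -/
def th (g : (H P.ext)ˣ) : H P.ext.ext := H.lth (Der.eul P.ext) (subU P g)

/-- Second family of one-cocycles. -/
def rh (G : Good P) (i : G.ι) (g : (H P.ext)ˣ) : H P.ext.ext :=
  H.map (sub P) (H.rth (G.E i).ext g)

/-- The two-cocycle (a cup product). -/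
def coc (G : Good P) (g h : (H P.ext)ˣ) : G.ι → P.ext.ext.A :=
  fun i => P.ext.ext.ip (th g).v (rh G i h).v

theorem coc_cocycle (G : Good P) (g h k : (H P.ext)ˣ) :
    coc G g h + coc G (g * h) k = coc G h k + coc G g (h * k) := by
  funext i
  have e1 : th (g * h) = ↑(subU P h)⁻¹ * th g * ↑(subU P h) + th h := by
    simp only [th, map_mul, H.lth_mul]
  have e2 : rh G i (h * k) = rh G i h + ↑(subU P h) * rh G i k * ↑(subU P h)⁻¹ := by
    simp only [rh, H.rth_mul, map_add, map_mul, subU_val, subU_inv_val]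
  simp only [coc, Pi.add_apply, e1, e2, H.add_v, RP.ip_add, RP.ip_add', H.ip_conj]
  ring

theorem coc_left (G : Good P) (g h : (H P.ext)ˣ) (hg : (g : H P.ext).v = 0) : coc G g h = 0 := by
  funext i
  have : (th g).v = 0 := H.lth_scal _ _ (by rw [subU_val, H.map_v, hg, map_zero])
  simp only [coc, this, RP.ip_zero, Pi.zero_apply]

theorem coc_right (G : Good P) (g h : (H P.ext)ˣ)
    (hh : ∀ i, (H.rth (G.E i).ext h).v = 0) : coc G g h = 0 := by
  funext i
  simp only [coc, rh, H.map_v, hh i, map_zero, RP.ip_zero', Pi.zero_apply]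

/-- The unit `1 + x`. -/
def tU (G : Good P) : (H P.ext)ˣ :=
  Units.ofPowEqOne (⟨1, gen P⟩ : H P.ext) 5 (H.pow_five_eq_one G.ext _ (map_one _)) (by norm_num)

theorem tU_val (G : Good P) : (tU G : H P.ext) = ⟨1, gen P⟩ := rfl

/-- The properties of the cocycle that are used below. -/
structure Coc (G : Good P) where
  c : (H P.ext)ˣ → (H P.ext)ˣ → G.ι → P.ext.ext.A
  cocycle : ∀ g h k, c g h + c (g * h) k = c h k + c g (h * k)
  left : ∀ g h : (H P.ext)ˣ, (g : H P.ext).v = 0 → c g h = 0
  right : ∀ g h : (H P.ext)ˣ, (∀ i, (H.rth (G.E i).ext h).v = 0) → c g h = 0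
  key : ∀ e : (H P.ext)ˣ, c (tU G) e = 0 → ∀ i, (H.rth (G.E i).ext e).v = 0

theorem Coc.one_left {G : Good P} (C : Coc G) (h : (H P.ext)ˣ) : C.c 1 h = 0 := C.left 1 h rfl

theorem Coc.one_right {G : Good P} (C : Coc G) (g : (H P.ext)ˣ) : C.c g 1 = 0 :=
  C.right g 1 (fun i => by rw [H.rth_one]; rfl)

/-- The central extension of the unit group. -/
@[ext] structure K {G : Good P} (C : Coc G) where
  g : (H P.ext)ˣ
  z : G.ι → P.ext.ext.A

namespace K

variable {G : Good P} {C : Coc G}

instance : Mul (K C) := ⟨fun a b => ⟨a.g * b.g, a.z + b.z + C.c a.g b.g⟩⟩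
instance : One (K C) := ⟨⟨1, 0⟩⟩
instance : Inv (K C) := ⟨fun a => ⟨a.g⁻¹, -a.z - C.c a.g⁻¹ a.g⟩⟩

theorem mul_g (a b : K C) : (a * b).g = a.g * b.g := rfl
theorem mul_z (a b : K C) : (a * b).z = a.z + b.z + C.c a.g b.g := rfl
theorem one_g : (1 : K C).g = 1 := rfl
theorem one_z : (1 : K C).z = 0 := rfl
theorem inv_g (a : K C) : (a⁻¹).g = a.g⁻¹ := rfl
theorem inv_z (a : K C) : (a⁻¹).z = -a.z - C.c a.g⁻¹ a.g := rfl

instance : Group (K C) := Group.ofLeftAxioms
  (fun a b c => by
    refine K.ext (mul_assoc _ _ _) ?_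
    simp only [mul_g, mul_z]
    linear_combination C.cocycle a.g b.g c.g)
  (fun a => by
    refine K.ext (one_mul _) ?_
    simp only [mul_z, one_z, one_g, Coc.one_left, zero_add, add_zero])
  (fun a => by
    refine K.ext (inv_mul_cancel _) ?_
    simp only [mul_z, one_z, inv_z, inv_g]
    ring)

/-- Projection to the unit group. -/
def proj (C : Coc G) : K C →* (H P.ext)ˣ where
  toFun a := a.g
  map_one' := rfl
  map_mul' _ _ := rfl

theorem central (a : K C) (h1 : (a.g : H P.ext).v = 0)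
    (h2 : ∀ i, (H.rth (G.E i).ext a.g).v = 0) (b : K C) : b * a = a * b := by
  refine K.ext ?_ ?_
  · exact Units.ext (H.scal_comm _ _ h1).symm
  · simp only [mul_z, C.left _ _ h1, C.right _ _ h2]
    ring

theorem central_one (a : K C) (h : a.g = 1) (b : K C) : b * a = a * b :=
  central a (by rw [h]; rfl) (fun i => by rw [h, H.rth_one]; rfl) b

theorem pow_five_of_one (a : K C) (h : a.g = 1) : a ^ 5 = 1 := by
  have key : ∀ n : ℕ, (a ^ n).g = 1 ∧ (a ^ n).z = n • a.z := by
    intro n
    induction n with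
    | zero => exact ⟨rfl, by rw [pow_zero, zero_smul]; rfl⟩
    | succ n ih =>
      rw [pow_succ, mul_g, mul_z, ih.1, ih.2, h, Coc.one_left, add_zero, succ_nsmul, one_mul]
      exact ⟨rfl, rfl⟩
  refine K.ext (key 5).1 ?_
  rw [(key 5).2]
  funext i
  simp only [Pi.smul_apply, nsmul_eq_mul, Nat.cast_ofNat, one_z, Pi.zero_apply]
  rw [P.ext.ext.five, zero_mul]

instance : Finite (K C) := by
  have := G.ext.finA
  have := G.ext.finL
  have := G.ext.ext.finA
  have := G.finι
  have : Finite (H P.ext) := Finite.of_injective (fun a : H P.ext => (a.r, a.v)) (fun a b h => by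
      simp only [Prod.mk.injEq] at h
      exact H.ext h.1 h.2)
  exact Finite.of_injective (fun a : K C => (a.g, a.z)) (fun a b h => by
      simp only [Prod.mk.injEq] at h
      exact K.ext h.1 h.2)

end K

theorem aug_mul_a (G : Good P) (a b : EA P) (l m : EL P) :
    G.aug (a * b - EL.eip l m).a = G.aug a.a * G.aug b.a := by
  simp [G.aug_ip]

theorem aug_mul_g (G : Good P) (a b : EA P) (l m : EL P) :
    G.aug (a • m + b • l + EL.ecr l m).g = G.aug a.a * G.aug m.g + G.aug b.a * G.aug l.g := by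
  simp [G.aug_ip]

/-- A dual number with given coordinates. -/
def dn (a b : ZMod 5) : DualNumber (ZMod 5) := (a, b)

theorem dn_mul (a b c d : ZMod 5) : dn a b * dn c d = dn (a * c) (a * d + c * b) := by
  refine TrivSqZeroExt.ext rfl ?_
  rw [TrivSqZeroExt.snd_mul]
  change a • d + MulOpposite.op c • b = a * d + c * b
  simp [mul_comm]

/-- The augmentation to first order in the generic vector. -/
def chi (G : Good P) : H P.ext →* DualNumber (ZMod 5) where
  toFun x := dn (G.aug (x.r : EA P).a) (G.aug (x.v : EL P).g)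
  map_one' := by
    refine TrivSqZeroExt.ext ?_ ?_
    · exact map_one G.aug
    · exact map_zero G.aug
  map_mul' x y := by
    rw [dn_mul, ← aug_mul_a G x.r y.r x.v y.v, ← aug_mul_g G x.r y.r x.v y.v]
    rfl

theorem chi_eq_one (G : Good P) (x : H P.ext) :
    chi G x = 1 ↔ G.aug (x.r : EA P).a = 1 ∧ G.aug (x.v : EL P).g = 0 := by
  rw [TrivSqZeroExt.ext_iff]; rfl

/-- The finite five-group of the example. -/
def Gam {G : Good P} (C : Coc G) : Subgroup (K C) :=
  ((chi G).comp ((Units.coeHom _).comp (K.proj C))).ker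

instance {G : Good P} (C : Coc G) : (Gam C).Normal := MonoidHom.normal_ker _

theorem mem_Gam {G : Good P} (C : Coc G) (a : K C) :
    a ∈ Gam C ↔ G.aug ((a.g : H P.ext).r : EA P).a = 1 ∧
      G.aug ((a.g : H P.ext).v : EL P).g = 0 := by
  rw [Gam, MonoidHom.mem_ker, ← chi_eq_one]; rfl

theorem isPGroup_Gam {G : Good P} (C : Coc G) : IsPGroup 5 (Gam C) := by
  intro a
  refine ⟨2, Subtype.ext ?_⟩
  have h1 : (a.1.g : H P.ext) ^ 5 = 1 := H.pow_five_eq_one G.ext _ ((mem_Gam C _).1 a.2).1
  have h2 : (a.1 ^ 5).g = 1 := by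
    change K.proj C (a.1 ^ 5) = 1
    rw [map_pow]
    exact Units.ext h1
  have := K.pow_five_of_one _ h2
  rw [← pow_mul] at this
  exact this

/-- Its lift to the central extension. -/
def tK {G : Good P} (C : Coc G) : K C := ⟨tU G, 0⟩

theorem tK_pow {G : Good P} (C : Coc G) : (tK C ^ 5).g = 1 := by
  change K.proj C (tK C ^ 5) = 1
  rw [map_pow]
  exact Units.ext (H.pow_five_eq_one G.ext _ (map_one _))

/-- The automorphism of the example. -/
def phi {G : Good P} (C : Coc G) : MulAut (Gam C) := MulAut.conjNormal (tK C)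

theorem phi_pow {G : Good P} (C : Coc G) : phi C ^ 5 = 1 := by
  rw [phi, ← map_pow]
  ext a
  all_goals
    rw [MulAut.conjNormal_apply, ← K.central_one _ (tK_pow C), mul_inv_cancel_right]
    rfl

end Pool.Agent.P.MP_29765e_al
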