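import Pool.Agent.P.MP_29765e_al.ExtB

set_option autoImplicit false
set_option linter.unusedSimpArgs false

namespace Pool.Agent.P.MP_29765e_al

namespace RP

variable (P : RP)

theorem aux1 (v x w : P.L) : P.ip v w • P.cr x w = (2 * P.ip w w) • P.cr x v := by
  rw [← P.cr_smul', P.ip_smul_self, P.cr_smul']

theorem aux2 (x w : P.L) : P.ip w w • P.cr x w = 0 := by
  rw [← P.cr_smul', P.sq_smul, P.cr_zero']

theorem aux3 (x y w : P.L) : P.ip (P.cr x w) (P.cr y w) = - (P.ip w w * P.ip x y) := by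
  rw [← P.i3, P.i1, P.ip_sub, P.ip_smul, P.ip_smul, P.ip_comm w y, P.ip_ip]
  ring

theorem aux4 (u y w : P.L) :
    P.cr u (P.cr y w) = P.ip u y • w + (3 : P.A) • P.cr (P.cr u y) w := by
  rw [P.i1', P.ip_smul_vec y u w]; module

theorem aux5 (y w : P.L) : P.cr w (P.cr y w) = - (P.ip w w • y) := by
  rw [P.cr_anti, P.cr_cr_self]

theorem aux6 (x y w : P.L) : P.cr (P.cr x w) (P.cr y w) = (2 * P.ip w w) • P.cr x y := by
  rw [P.i1, P.t_self', zero_smul, sub_zero, ← P.i3, P.ip_smul_self]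

end RP

/-- Homomorphisms of pairs. -/
structure Hom (P Q : RP) where
  fA : P.A →+* Q.A
  fL : P.L →+ Q.L
  smul : ∀ a x, fL (a • x) = fA a • fL x
  ip : ∀ x y, fA (P.ip x y) = Q.ip (fL x) (fL y)
  cr : ∀ x y, fL (P.cr x y) = Q.cr (fL x) (fL y)

namespace Hom

/-- Composition. -/
def comp {P Q R : RP} (g : Hom Q R) (f : Hom P Q) : Hom P R where
  fA := g.fA.comp f.fA
  fL := g.fL.comp f.fL
  smul a x := by simp [f.smul, g.smul]
  ip x y := by simp [f.ip, g.ip]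
  cr x y := by simp [f.cr, g.cr]

/-- Inclusion of scalars. -/
def incA (P : RP) : P.A →+* EA P where
  toFun a := ⟨a, 0, 0⟩
  map_one' := rfl
  map_mul' a b := by ext <;> simp [P.ip_zero]
  map_zero' := rfl
  map_add' a b := by ext <;> simp

/-- Inclusion of vectors. -/
def incL (P : RP) : P.L →+ EL P where
  toFun x := ⟨x, 0, 0, 0⟩
  map_zero' := rfl
  map_add' a b := by ext <;> simp

theorem incA_apply (P : RP) (a : P.A) : incA P a = ⟨a, 0, 0⟩ := rfl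
theorem incL_apply (P : RP) (x : P.L) : incL P x = ⟨x, 0, 0, 0⟩ := rfl

/-- Inclusion into the extension. -/
def inc (P : RP) : Hom P P.ext where
  fA := incA P
  fL := incL P
  smul a x := by
    change incL P (a • x) = (incA P a : EA P) • (incL P x : EL P)
    ext <;> simp [incA_apply, incL_apply, P.ip_zero, P.cr_zero]
  ip x y := by
    change incA P (P.ip x y) = EL.eip (incL P x) (incL P y)
    ext <;> simp [incA_apply, incL_apply, P.ip_zero, P.cr_zero, P.ip_zero', P.cr_zero']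
  cr x y := by
    change incL P (P.cr x y) = EL.ecr (incL P x) (incL P y)
    ext <;> simp [incA_apply, incL_apply, P.ip_zero, P.cr_zero, P.ip_zero', P.cr_zero']

variable {P Q : RP} (f : Hom P Q) (w : Q.L)

/-- Substitution on scalars. -/
def evA : EA P →+* Q.A where
  toFun a := f.fA a.a + Q.ip (f.fL a.v) w + f.fA a.b * Q.ip w w
  map_one' := by simp [Q.ip_zero]
  map_zero' := by simp [Q.ip_zero]
  map_add' a b := by simp only [EA.add_a, EA.add_v, EA.add_b, map_add, Q.ip_add]; ring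
  map_mul' a b := by
    simp only [EA.mul_a, EA.mul_v, EA.mul_b, map_add, map_mul, f.smul, f.ip, Q.ip_add, Q.ip_smul,
      map_ofNat]
    linear_combination (-1 : Q.A) * Q.ip_ip (f.fL b.v) (f.fL a.v) w
      - f.fA b.b * Q.sq_ip (f.fL a.v) w - f.fA a.b * Q.sq_ip (f.fL b.v) w
      - f.fA a.b * f.fA b.b * Q.sq_sq w

/-- Substitution on vectors. -/
def evL : EL P →+ Q.L where
  toFun l := f.fL l.u + f.fA l.g • w + Q.cr (f.fL l.y) w + Q.ip w w • f.fL l.s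
  map_zero' := by simp [Q.cr_zero]
  map_add' a b := by
    simp only [EL.add_u, EL.add_g, EL.add_y, EL.add_s, map_add, Q.cr_add]; module

theorem evA_apply (a : EA P) :
    evA f w a = f.fA a.a + Q.ip (f.fL a.v) w + f.fA a.b * Q.ip w w := rfl

theorem evL_apply (l : EL P) :
    evL f w l = f.fL l.u + f.fA l.g • w + Q.cr (f.fL l.y) w + Q.ip w w • f.fL l.s := rfl

theorem ev_smul (a : EA P) (l : EL P) : evL f w (a • l) = evA f w a • evL f w l := by
  simp only [evA_apply, evL_apply, EL.smul_u, EL.smul_g, EL.smul_y, EL.smul_s, map_add, map_mul,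
    f.smul, f.ip, f.cr, Q.cr_add, Q.cr_smul, map_ofNat]
  linear_combination (norm := module) (-1 : Q.A) • Q.ip_smul_vec (f.fL l.u) (f.fL a.v) w
    - f.fA l.g • Q.ip_smul_self (f.fL a.v) w - Q.aux1 (f.fL a.v) (f.fL l.y) w
    - Q.sq_ip (f.fL a.v) w • f.fL l.s - (f.fA a.b * f.fA l.g) • Q.sq_smul w
    - f.fA a.b • Q.aux2 (f.fL l.y) w - (f.fA a.b * Q.sq_sq w) • f.fL l.s

theorem ev_ip (l m : EL P) : evA f w (EL.eip l m) = Q.ip (evL f w l) (evL f w m) := by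
  have h1 := Q.i3 (f.fL l.u) (f.fL m.y) w
  have h2 := Q.i3 (f.fL m.u) (f.fL l.y) w
  have h3 := Q.t_self' w (f.fL l.y)
  have h4 := Q.t_self' w (f.fL m.y)
  have h5 := Q.aux3 (f.fL l.y) (f.fL m.y) w
  have h6 : Q.ip w w * Q.ip (f.fL l.s) (Q.cr (f.fL m.y) w) = 0 := by
    rw [← Q.ip_smul', Q.aux2, Q.ip_zero']
  have h7 : Q.ip w w * Q.ip (f.fL m.s) (Q.cr (f.fL l.y) w) = 0 := by
    rw [← Q.ip_smul', Q.aux2, Q.ip_zero']
  simp only [evA_apply, evL_apply, EL.eip_a, EL.eip_v, EL.eip_b, map_add, map_mul, map_sub,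
    f.smul, f.ip, f.cr, Q.ip_add, Q.ip_add', Q.ip_smul, Q.ip_smul', map_ofNat,
    Q.ip_comm w (f.fL m.u), Q.ip_comm w (f.fL m.s), Q.ip_comm (Q.cr (f.fL l.y) w) (f.fL m.u),
    Q.ip_comm (Q.cr (f.fL l.y) w) (f.fL m.s), Q.ip_comm (Q.cr (f.fL l.y) w) w,
    Q.ip_comm (f.fL l.s) (f.fL m.u)]
  linear_combination h1 + h2 - f.fA m.g * h3 - f.fA l.g * h4 - h5 - h6 - h7
    - f.fA l.g * Q.sq_ip (f.fL m.s) w - f.fA m.g * Q.sq_ip (f.fL l.s) w
    - Q.ip (f.fL l.s) (f.fL m.s) * Q.sq_sq w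

theorem ev_cr (l m : EL P) : evL f w (EL.ecr l m) = Q.cr (evL f w l) (evL f w m) := by
  have h1 := Q.aux4 (f.fL l.u) (f.fL m.y) w
  have h2 := Q.aux4 (f.fL m.u) (f.fL l.y) w
  have h3 := Q.aux5 (f.fL l.y) w
  have h4 := Q.aux5 (f.fL m.y) w
  have h5 := Q.aux6 (f.fL l.y) (f.fL m.y) w
  have h6 : Q.ip w w • Q.cr (f.fL l.s) (Q.cr (f.fL m.y) w) = 0 := by
    rw [← Q.cr_smul', Q.aux2, Q.cr_zero']
  have h7 : Q.ip w w • Q.cr (f.fL m.s) (Q.cr (f.fL l.y) w) = 0 := by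
    rw [← Q.cr_smul', Q.aux2, Q.cr_zero']
  simp only [evA_apply, evL_apply, EL.ecr_u, EL.ecr_g, EL.ecr_y, EL.ecr_s, map_add, map_mul,
    map_sub, f.smul, f.ip, f.cr, Q.cr_add, Q.cr_add', Q.cr_smul, Q.cr_smul', Q.cr_sub, map_ofNat,
    Q.cr_self w,
    Q.cr_anti w (f.fL m.u), Q.cr_anti w (f.fL m.s), Q.cr_anti (Q.cr (f.fL l.y) w) (f.fL m.u),
    Q.cr_anti (Q.cr (f.fL l.y) w) (f.fL m.s), Q.cr_anti (Q.cr (f.fL l.y) w) w,
    Q.cr_anti (f.fL l.s) (f.fL m.u)]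
  linear_combination (norm := module) h2 - h1 + f.fA m.g • h3 - f.fA l.g • h4 - h5 - h6 + h7
    + f.fA l.g • Q.aux2 (f.fL m.s) w - f.fA m.g • Q.aux2 (f.fL l.s) w
    - Q.sq_sq w • Q.cr (f.fL l.s) (f.fL m.s)

/-- Substitution of `w` for the generic vector. -/
def ev : Hom P.ext Q where
  fA := evA f w
  fL := evL f w
  smul := ev_smul f w
  ip := ev_ip f w
  cr := ev_cr f w

end Hom

end Pool.Agent.P.MP_29765e_al
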