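import Pool.Agent.P.MP_29765e_al.Grp

set_option autoImplicit false
set_option linter.unusedSimpArgs false

open scoped commutatorElement

namespace Pool.Agent.P.MP_29765e_al

theorem RP.ip_move (Q : RP) (c : Q.A) (y w v : Q.L) :
    Q.ip (c • w - Q.cr y w) v = Q.ip w (c • v - Q.cr v y) := by
  rw [Q.ip_sub, Q.ip_sub', Q.ip_smul, Q.ip_smul', Q.i3, Q.t_cyc]

theorem RP.eq_zero_of_eig (Q : RP) (x v : Q.L) (h : (1 - Q.ip x x) • v - Q.cr v x = 0) :
    v = 0 := by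
  have h1 : Q.cr v x = (1 - Q.ip x x) • v := (sub_eq_zero.1 h).symm
  have h2 := Q.cr_cr_self v x
  rw [h1, Q.cr_smul, h1] at h2
  linear_combination (norm := module) (1 + 3 * Q.ip x x) • h2
    + ((8 - 3 * Q.ip x x) * Q.sq_sq x) • v

theorem ip_gen (Q : RP) (l : EL Q) (h : Q.ext.ip (gen Q) l = 0) : l.u = 0 := by
  have h1 : (EL.eip (⟨0, 1, 0, 0⟩ : EL Q) l).v = 0 := congrArg EA.v h
  simpa [Q.cr_zero, Q.cr_zero'] using h1

theorem ev_id (P : RP) (l : EL P) : Hom.evL (Hom.inc P) (gen P) l = l := by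
  change (Hom.incL P l.u + (Hom.incA P l.g) • (⟨0, 1, 0, 0⟩ : EL P)
    + EL.ecr (Hom.incL P l.y) ⟨0, 1, 0, 0⟩
    + EL.eip (⟨0, 1, 0, 0⟩ : EL P) ⟨0, 1, 0, 0⟩ • (Hom.incL P l.s : EL P) : EL P) = l
  ext <;> simp [Hom.incA_apply, Hom.incL_apply, P.ip_zero, P.ip_zero', P.cr_zero, P.cr_zero']

theorem ev_u {P Q : RP} (f : Hom P Q) (x : Q.L) (l : EL P) :
    EL.u (Hom.evL ((Hom.inc Q).comp f) ((Hom.inc Q).fL x + gen Q) l) = Hom.evL f x l := by
  have e : ((Hom.inc Q).fL x + gen Q : EL Q) = ⟨x, 1, 0, 0⟩ := by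
    change (Hom.incL Q x + (⟨0, 1, 0, 0⟩ : EL Q) : EL Q) = _
    ext <;> simp [Hom.incL_apply]
  rw [Hom.evL_apply, Hom.evL_apply, e]
  rfl

variable {P : RP}

theorem sub_u (l : EL P) : EL.u ((sub P).fL l) = l := by
  have := ev_u (Hom.inc P) (gen P) l
  rw [ev_id] at this
  exact this

theorem sub_gen : (sub P).fL (gen P) = (Hom.inc P.ext).fL (gen P) + gen P.ext := by
  change Hom.evL _ _ (⟨0, 1, 0, 0⟩ : EL P) = _
  rw [Hom.evL_apply]
  simp [RP.cr_zero]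

theorem eul_sub_gen : (Der.eul P.ext).dL ((sub P).fL (gen P)) = gen P.ext := by
  rw [sub_gen]
  change Der.eulL P.ext (Hom.incL P.ext (gen P) + (⟨0, 1, 0, 0⟩ : EL P.ext)) = ⟨0, 1, 0, 0⟩
  ext1 <;> simp [Hom.incL_apply]

theorem inv_one_add (Q : RP) (u : (H Q)ˣ) (y : Q.L) (h : (u : H Q) = ⟨1, y⟩) :
    (↑u⁻¹ : H Q) = ⟨1 - Q.ip y y, -y⟩ := by
  apply Units.inv_eq_of_mul_eq_one_right
  rw [h]
  ext
  · simp [Q.ip_neg']
  · simp only [H.mul_v, H.one_v, Q.cr_neg', Q.cr_self]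
    linear_combination (norm := module) (-1 : Q.A) • Q.sq_smul y

theorem th_tU (G : Good P) : (th (tU G)).v =
    (1 - P.ext.ext.ip ((sub P).fL (gen P)) ((sub P).fL (gen P))) • gen P.ext
      - P.ext.ext.cr ((sub P).fL (gen P)) (gen P.ext) := by
  have h1 : (subU P (tU G) : H P.ext.ext) = ⟨1, (sub P).fL (gen P)⟩ := by
    rw [subU_val, tU_val]
    ext1
    · exact map_one _
    · rfl
  rw [th, H.lth, inv_one_add _ _ _ h1, h1, H.mul_v]
  simp only [H.der_r, H.der_v, Der.one, eul_sub_gen, zero_smul, add_zero, RP.cr_neg,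
    sub_eq_add_neg]

theorem rth_tU (G : Good P) (i : G.ι) : H.rth (G.E i).ext (tU G) = 0 := by
  have : H.der (G.E i).ext (tU G : H P.ext) = 0 := by
    rw [tU_val]
    ext1
    · exact Der.one _
    · change (G.E i).extL (⟨0, 1, 0, 0⟩ : EL P) = 0
      ext <;> simp [Der.one]
  rw [H.rth, this, zero_mul]

theorem rth_of_coc (G : Good P) (e : (H P.ext)ˣ) (h : coc G (tU G) e = 0) (i : G.ι) :
    (H.rth (G.E i).ext e).v = 0 := by
  have h1 : P.ext.ext.ip (th (tU G)).v ((sub P).fL (H.rth (G.E i).ext e).v) = 0 := congrFun h i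
  rw [th_tU, RP.ip_move, ← (sub P).cr, ← (sub P).ip, ← map_one (sub P).fA, ← map_sub,
    ← (sub P).smul, ← map_sub] at h1
  have h2 := ip_gen _ _ h1
  exact RP.eq_zero_of_eig _ _ _ ((sub_u _).symm.trans h2)

theorem der_pow_smul {Q : RP} (d : Der Q) (e : (H Q)ˣ) (h : (H.rth d e).v = 0) :
    d.dL ((e : H Q).r ^ 4 • (e : H Q).v) = 0 := by
  have h1 : H.der d e = H.rth d e * e := by rw [H.rth, Units.inv_mul_cancel_right]
  have h2 := congrArg H.r h1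
  have h3 := congrArg H.v h1
  rw [H.mul_r, h, Q.ip_zero, sub_zero, H.der_r] at h2
  rw [H.mul_v, h, Q.cr_zero, smul_zero, add_zero, add_zero, H.der_v] at h3
  have h4 : (e : H Q).r ^ 4 = ((e : H Q).r * (e : H Q).r) * ((e : H Q).r * (e : H Q).r) := by ring
  rw [d.smul, h3, h4, d.mul, d.mul, h2]
  linear_combination (norm := module)
    Q.five_smul (((H.rth d e).r * (e : H Q).r ^ 4) • (e : H Q).v)

theorem vec_eq_zero (G : Good P) (e : (H P.ext)ˣ) (h1 : G.aug ((e : H P.ext).r : EA P).a = 1)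
    (h2 : G.aug ((e : H P.ext).v : EL P).g = 0) (h : ∀ i, (H.rth (G.E i).ext e).v = 0) :
    (e : H P.ext).v = 0 := by
  have h3 : ∀ i, (G.E i).extL ((e : H P.ext).r ^ 4 • (e : H P.ext).v) = 0 :=
    fun i => der_pow_smul (G.E i).ext e (h i)
  have h4 : (e : H P.ext).r ^ 4 • (e : H P.ext).v = 0 := by
    refine EL.ext ?_ ?_ ?_ ?_
    · exact G.kerL _ (fun j => congrArg EL.u (h3 j))
    · refine G.kerA _ ?_ (fun j => congrArg EL.g (h3 j))
      have : ∀ (a : EA P) (l : EL P), G.aug l.g = 0 → G.aug (a • l).g = 0 := by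
        intro a l hl
        simp [hl, G.aug_ip]
      exact this _ _ h2
    · exact G.kerL _ (fun j => congrArg EL.y (h3 j))
    · exact G.kerL _ (fun j => congrArg EL.s (h3 j))
  have h5 : (e : H P.ext).r ^ 5 = 1 := by
    have := congrArg H.r (H.pow_five_eq_one G.ext (e : H P.ext) h1)
    rw [H.pow_five] at this
    exact this
  rw [← one_smul P.ext.A (e : H P.ext).v, ← h5, pow_succ', mul_smul, h4, smul_zero]

/-- The cocycle with its properties. -/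
def theCoc (G : Good P) : Coc G :=
  ⟨coc G, coc_cocycle G, coc_left G, coc_right G, rth_of_coc G⟩

theorem coc_of_comm {G : Good P} (C : Coc G) (a : K C) (h : tK C * a = a * tK C) :
    C.c (tU G) a.g = 0 := by
  have h0 : C.c a.g (tU G) = 0 := C.right a.g _ (fun i => by rw [rth_tU]; rfl)
  have h3 : (tK C * a).z = (a * tK C).z := by rw [h]
  have e1 : (tK C).g = tU G := rfl
  have e2 : (tK C).z = 0 := rfl
  rw [K.mul_z, K.mul_z, e1, e2, h0, zero_add, add_zero, add_zero] at h3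
  exact add_eq_left.1 h3

theorem fixed_central {G : Good P} (C : Coc G) (a : Gam C) (h : phi C a = a) :
    a ∈ Subgroup.center (Gam C) := by
  have h1 : tK C * a.1 * (tK C)⁻¹ = a.1 := by
    rw [phi] at h
    rw [← MulAut.conjNormal_apply, h]
  have h2 : tK C * a.1 = a.1 * tK C := by
    rw [← mul_inv_eq_iff_eq_mul, h1]
  have h4 := coc_of_comm C a.1 h2
  have h5 := C.key _ h4
  have h6 := (mem_Gam C _).1 a.2
  have h7 := vec_eq_zero G _ h6.1 h6.2 h5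
  rw [Subgroup.mem_center_iff]
  intro b
  exact Subtype.ext (K.central a.1 h7 h5 b.1)

theorem comm_id (Q : RP) (m n : Q.A) (p q : Q.L) (hm : m * m = 0) (hn : n * n = 0) :
    (⟨1, m • p⟩ : H Q) * ⟨1, n • q⟩ =
      ⟨1, (2 * m * n) • Q.cr p q⟩ * ((⟨1, n • q⟩ : H Q) * ⟨1, m • p⟩) := by
  ext
  · simp only [H.mul_r, H.mul_v, Q.ip_add', Q.ip_smul, Q.ip_smul', Q.cr_smul, Q.cr_smul',
      Q.ip_comm q p]
    linear_combination (2 * n * Q.ip (Q.cr p q) p + 2 * n * n * Q.ip (Q.cr p q) (Q.cr q p)) * hm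
      + (2 * m * Q.ip (Q.cr p q) q) * hn
  · simp only [H.mul_r, H.mul_v, Q.cr_add', Q.ip_smul, Q.ip_smul', Q.cr_smul, Q.cr_smul',
      Q.cr_anti q p, Q.cr_neg', Q.cr_self]
    linear_combination (norm := module) ((2 * n * n * Q.ip q p) * hm) • Q.cr p q
      - ((2 * n) * hm) • Q.cr (Q.cr p q) p - ((2 * m) * hn) • Q.cr (Q.cr p q) q

theorem level_mem {G : Good P} (C : Coc G) : ∀ (k : ℕ) (m : P.ext.A), Lev P.ext k m → ∀ v : P.ext.L,
    ∃ a : Gam C, a ∈ derivedSeries (Gam C) k ∧ (a.1.g : H P.ext) = ⟨1, m • v⟩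
  | 0, m, ⟨y, h⟩, v => by
    let u : (H P.ext)ˣ := Units.ofPowEqOne (⟨1, m • v⟩ : H P.ext) 5
      (H.pow_five_eq_one G.ext _ (map_one _)) (by norm_num)
    refine ⟨⟨⟨u, 0⟩, (mem_Gam C _).2 ⟨map_one G.aug, ?_⟩⟩, Subgroup.mem_top _, rfl⟩
    have : ∀ (a : EA P) (l : EL P), G.aug a.a = 0 → G.aug (a • l).g = 0 := by
      intro a l hl
      simp [hl, G.aug_ip]
    refine this m v ?_
    rw [h]
    exact G.ext.aug_ip y y
  | k + 1, m, ⟨m1, m2, y, h1, h2, h⟩, v => by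
    obtain ⟨a, ha, ea⟩ := level_mem C k m1 h1 ((3 : P.ext.A) • P.ext.cr v y)
    obtain ⟨b, hb, eb⟩ := level_mem C k m2 h2 y
    refine ⟨⁅a, b⁆, Subgroup.commutator_mem_commutator ha hb, ?_⟩
    have e1 : (⁅a, b⁆ : Gam C).1.g = a.1.g * b.1.g * (b.1.g * a.1.g)⁻¹ := by
      rw [mul_inv_rev, ← mul_assoc]; rfl
    rw [e1, Units.val_mul, Units.mul_inv_eq_iff_eq_mul, Units.val_mul, Units.val_mul, ea, eb,
      comm_id _ _ _ _ _ (Lev.sq _ _ h1) (Lev.sq _ _ h2), RP.cr_smul, RP.cr_cr_self, h]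
    congr 2
    linear_combination (norm := module) P.ext.five_smul ((m1 * m2 * P.ext.ip y y) • v)

theorem exists_example (n : ℕ) : ∃ (Q : RP) (G : Good Q) (C : Coc G),
    derivedSeries (Gam C) n ≠ ⊥ := by
  obtain ⟨Q, G, m, x, h1, h2⟩ := exists_level n
  obtain ⟨C⟩ : Nonempty (Coc G) := ⟨theCoc G⟩
  obtain ⟨a, ha, ea⟩ := level_mem C n _ (Lev.map (Hom.inc Q) _ _ h1) ((Hom.inc Q).fL x)
  refine ⟨Q, G, C, fun h => h2 ?_⟩
  rw [h, Subgroup.mem_bot] at ha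
  rw [ha, ← (Hom.inc Q).smul] at ea
  have h3 : (0 : Q.ext.L) = (Hom.inc Q).fL (m • x) := congrArg H.v ea
  exact (congrArg EL.u h3).symm

theorem ne_one_of_central {Γ : Type} [Group Γ] (φ : MulAut Γ)
    (hφ : ∀ g : Γ, φ g = g → g ∈ Subgroup.center Γ) (n : ℕ)
    (hG : derivedSeries Γ (n + 1) ≠ ⊥) : φ ≠ 1 := by
  intro h1
  apply hG
  have hc : Subgroup.center Γ = ⊤ := by
    rw [eq_top_iff]
    intro a _
    apply hφ a
    rw [h1, MulAut.one_apply]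
  rw [← commutator_eq_bot_iff_center_eq_top, ← derivedSeries_one] at hc
  have h2 := derivedSeries_antitone Γ (Nat.le_add_left 1 n)
  rw [hc] at h2
  exact le_bot_iff.1 h2

theorem package {Γ : Type} [Group Γ] (φ : MulAut Γ) (h5 : φ ^ 5 = 1)
    (hφ : ∀ g : Γ, φ g = g → g ∈ Subgroup.center Γ) (n : ℕ)
    (hG : derivedSeries Γ (n + 1) ≠ ⊥) : orderOf φ = 5 ∧ derivedSeries Γ n ≠ ⊥ := by
  have : Fact (Nat.Prime 5) := ⟨by norm_num⟩
  refine ⟨orderOf_eq_prime h5 (ne_one_of_central φ hφ n hG), fun h => hG ?_⟩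
  have h2 := derivedSeries_antitone Γ (Nat.le_succ n)
  rw [h] at h2
  exact le_bot_iff.1 h2

theorem finite_Gam {G : Good P} (C : Coc G) : Finite (Gam C) := Subtype.finite

theorem package' (n : ℕ) (Γ : Type) [hg : Group Γ] (hf : Finite Γ) (φ : MulAut Γ)
    (hp : IsPGroup 5 Γ) (h5 : φ ^ 5 = 1) (hφ : ∀ g : Γ, φ g = g → g ∈ Subgroup.center Γ)
    (hG : derivedSeries Γ (n + 1) ≠ ⊥) :
    ∃ (Γ : Type) (_ : Group Γ) (_ : Finite Γ) (φ : MulAut Γ),
    IsPGroup 5 Γ ∧ orderOf φ = 5 ∧ (∀ g : Γ, φ g = g → g ∈ Subgroup.center Γ) ∧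
      derivedSeries Γ n ≠ ⊥ :=
  ⟨Γ, hg, hf, φ, hp, (package φ h5 hφ n hG).1, hφ, (package φ h5 hφ n hG).2⟩

theorem counterexample (n : ℕ) : ∃ (Γ : Type) (_ : Group Γ) (_ : Finite Γ) (φ : MulAut Γ),
    IsPGroup 5 Γ ∧ orderOf φ = 5 ∧ (∀ g : Γ, φ g = g → g ∈ Subgroup.center Γ) ∧
      derivedSeries Γ n ≠ ⊥ :=
  (exists_example (n + 1)).elim fun _ h => h.elim fun _ h => h.elim fun C hG =>
    package' n (Gam C) (finite_Gam C) (phi C) (isPGroup_Gam C) (phi_pow C) (fixed_central C) hG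

end Pool.Agent.P.MP_29765e_al
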