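import Mathlib

set_option autoImplicit false

namespace Pool.Agent.P.MP_29765e_al

/-- Scalars and vectors with an inner product and a cross product, in characteristic five,
subject to the identities of the Razmyslov algebra. -/
structure RP where
  A : Type
  L : Type
  [cA : CommRing A]
  [gL : AddCommGroup L]
  [mL : Module A L]
  ip : L → L → A
  cr : L → L → L
  five : (5 : A) = 0
  ip_add : ∀ x y z, ip (x + y) z = ip x z + ip y z
  ip_smul : ∀ (a : A) x y, ip (a • x) y = a * ip x y
  ip_comm : ∀ x y, ip x y = ip y x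
  cr_add : ∀ x y z, cr (x + y) z = cr x z + cr y z
  cr_smul : ∀ (a : A) x y, cr (a • x) y = a • cr x y
  cr_anti : ∀ x y, cr x y = - cr y x
  i1 : ∀ x y z, cr (cr x y) z = ip x z • y - ip y z • x
  i2 : ∀ x y z, ip x y • z + ip y z • x + ip x z • y = 0
  i3 : ∀ x y z, ip (cr x y) z = ip x (cr y z)

attribute [instance] RP.cA RP.gL RP.mL

namespace RP

variable (P : RP)

theorem ip_add' (x y z : P.L) : P.ip x (y + z) = P.ip x y + P.ip x z := by
  rw [P.ip_comm x, P.ip_add, P.ip_comm y, P.ip_comm z]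

theorem ip_smul' (a : P.A) (x y : P.L) : P.ip x (a • y) = a * P.ip x y := by
  rw [P.ip_comm x, P.ip_smul, P.ip_comm y]

theorem ip_zero (x : P.L) : P.ip 0 x = 0 := by
  have := P.ip_smul 0 0 x
  simpa using this

theorem ip_zero' (x : P.L) : P.ip x 0 = 0 := by rw [P.ip_comm, P.ip_zero]

theorem ip_neg (x y : P.L) : P.ip (-x) y = - P.ip x y := by
  have := P.ip_smul (-1) x y
  simpa using this

theorem ip_neg' (x y : P.L) : P.ip x (-y) = - P.ip x y := by
  rw [P.ip_comm x, P.ip_neg, P.ip_comm y]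

theorem ip_sub (x y z : P.L) : P.ip (x - y) z = P.ip x z - P.ip y z := by
  rw [sub_eq_add_neg, P.ip_add, P.ip_neg, sub_eq_add_neg]

theorem ip_sub' (x y z : P.L) : P.ip x (y - z) = P.ip x y - P.ip x z := by
  rw [sub_eq_add_neg, P.ip_add', P.ip_neg', sub_eq_add_neg]

theorem cr_add' (x y z : P.L) : P.cr x (y + z) = P.cr x y + P.cr x z := by
  rw [P.cr_anti x, P.cr_add, P.cr_anti y, P.cr_anti z]; abel

theorem cr_smul' (a : P.A) (x y : P.L) : P.cr x (a • y) = a • P.cr x y := by
  rw [P.cr_anti x, P.cr_smul, P.cr_anti y]; simp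

theorem cr_zero (x : P.L) : P.cr 0 x = 0 := by
  have := P.cr_smul 0 0 x
  simpa using this

theorem cr_zero' (x : P.L) : P.cr x 0 = 0 := by rw [P.cr_anti, P.cr_zero, neg_zero]

theorem cr_neg (x y : P.L) : P.cr (-x) y = - P.cr x y := by
  have := P.cr_smul (-1) x y
  simpa using this

theorem cr_neg' (x y : P.L) : P.cr x (-y) = - P.cr x y := by
  rw [P.cr_anti x, P.cr_neg, P.cr_anti y, neg_neg]

theorem cr_sub (x y z : P.L) : P.cr (x - y) z = P.cr x z - P.cr y z := by
  rw [sub_eq_add_neg, P.cr_add, P.cr_neg, sub_eq_add_neg]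

theorem cr_sub' (x y z : P.L) : P.cr x (y - z) = P.cr x y - P.cr x z := by
  rw [sub_eq_add_neg, P.cr_add', P.cr_neg', sub_eq_add_neg]

theorem five_smul (x : P.L) : (5 : P.A) • x = 0 := by rw [P.five, zero_smul]

theorem eq_zero_of_two (x : P.L) (h : (2 : P.A) • x = 0) : x = 0 := by
  linear_combination (norm := module) (3 : P.A) • h - P.five_smul x

theorem eq_zero_of_two' (a : P.A) (h : 2 * a = 0) : a = 0 := by
  linear_combination 3 * h - a * P.five

theorem cr_self (x : P.L) : P.cr x x = 0 := by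
  apply P.eq_zero_of_two
  linear_combination (norm := module) P.cr_anti x x

theorem i1' (x y z : P.L) : P.cr x (P.cr y z) = P.ip x z • y - P.ip x y • z := by
  rw [P.cr_anti, P.i1, P.ip_comm y x, P.ip_comm z x]; abel

theorem t_swap (x y z : P.L) : P.ip y (P.cr x z) = - P.ip x (P.cr y z) := by
  rw [← P.i3, ← P.i3, P.cr_anti y x, P.ip_neg]

theorem t_cyc (x y z : P.L) : P.ip z (P.cr x y) = P.ip x (P.cr y z) := by
  rw [P.ip_comm, P.i3]

theorem t_self (x y : P.L) : P.ip x (P.cr x y) = 0 := by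
  rw [← P.i3, P.cr_self, P.ip_zero]

theorem t_self' (x y : P.L) : P.ip x (P.cr y x) = 0 := by
  rw [P.cr_anti, P.ip_neg', P.t_self, neg_zero]

theorem sq_smul (w : P.L) : P.ip w w • w = 0 := by
  linear_combination (norm := module) (2 : P.A) • P.i2 w w w - P.five_smul (P.ip w w • w)

theorem ip_smul_self (v w : P.L) : P.ip v w • w = (2 * P.ip w w) • v := by
  have h := P.i2 v w w
  linear_combination (norm := module) (3 : P.A) • h - P.five_smul (P.ip v w • w)
    - P.five_smul (P.ip w w • v)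

theorem ip_smul_vec (u v w : P.L) :
    P.ip v w • u = (3 : P.A) • P.cr (P.cr v u) w + (2 * P.ip v u) • w := by
  have h := P.i2 v u w
  rw [P.i1]
  linear_combination (norm := module) (3 : P.A) • h - P.five_smul (P.ip v w • u)
    - P.five_smul (P.ip v u • w)

theorem sq_sq (w : P.L) : P.ip w w * P.ip w w = 0 := by
  rw [← P.ip_smul, P.sq_smul, P.ip_zero]

theorem sq_ip (v w : P.L) : P.ip w w * P.ip v w = 0 := by
  rw [← P.ip_smul', P.sq_smul, P.ip_zero']

theorem ip_ip (u v w : P.L) : P.ip u w * P.ip v w = 2 * P.ip w w * P.ip v u := by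
  rw [← P.ip_smul', P.ip_smul_self, P.ip_smul']

theorem cr_cr_self (v w : P.L) : P.cr (P.cr v w) w = P.ip w w • v := by
  rw [P.i1, P.ip_smul_self]; module

end RP

end Pool.Agent.P.MP_29765e_al
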