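import Pool.Agent.P.MP_29765e_al.Der

set_option autoImplicit false
set_option linter.unusedSimpArgs false

namespace Pool.Agent.P.MP_29765e_al

/-- The quaternion-like associative algebra of a pair. -/
@[ext] structure H (P : RP) where
  r : P.A
  v : P.L

namespace H

variable {P : RP}

instance : Zero (H P) := ⟨⟨0, 0⟩⟩
instance : One (H P) := ⟨⟨1, 0⟩⟩
instance : Add (H P) := ⟨fun x y => ⟨x.r + y.r, x.v + y.v⟩⟩
instance : Neg (H P) := ⟨fun x => ⟨-x.r, -x.v⟩⟩
instance : Mul (H P) := ⟨fun x y => ⟨x.r * y.r - P.ip x.v y.v,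
  x.r • y.v + y.r • x.v + P.cr x.v y.v⟩⟩

@[simp] theorem zero_r : (0 : H P).r = 0 := rfl
@[simp] theorem zero_v : (0 : H P).v = 0 := rfl
@[simp] theorem one_r : (1 : H P).r = 1 := rfl
@[simp] theorem one_v : (1 : H P).v = 0 := rfl
@[simp] theorem add_r (x y : H P) : (x + y).r = x.r + y.r := rfl
@[simp] theorem add_v (x y : H P) : (x + y).v = x.v + y.v := rfl
@[simp] theorem neg_r (x : H P) : (-x).r = -x.r := rfl
@[simp] theorem neg_v (x : H P) : (-x).v = -x.v := rfl
@[simp] theorem mul_r (x y : H P) : (x * y).r = x.r * y.r - P.ip x.v y.v := rfl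
@[simp] theorem mul_v (x y : H P) : (x * y).v = x.r • y.v + y.r • x.v + P.cr x.v y.v := rfl

instance : AddCommGroup (H P) where
  add_assoc x y z := by ext <;> simp [add_assoc]
  zero_add x := by ext <;> simp
  add_zero x := by ext <;> simp
  add_comm x y := by ext <;> simp [add_comm]
  neg_add_cancel x := by ext <;> simp
  nsmul := nsmulRec
  zsmul := zsmulRec

instance : Ring (H P) where
  __ := (inferInstance : AddCommGroup (H P))
  mul_assoc x y z := by
    ext
    · simp only [mul_r, mul_v, P.ip_add, P.ip_add', P.ip_smul, P.ip_smul', P.i3]; ring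
    · simp only [mul_r, mul_v, P.cr_add, P.cr_add', P.cr_smul, P.cr_smul', P.i1, P.i1']; module
  one_mul x := by ext <;> simp [P.ip_zero, P.cr_zero]
  mul_one x := by ext <;> simp [P.ip_zero', P.cr_zero']
  zero_mul x := by ext <;> simp [P.ip_zero, P.cr_zero]
  mul_zero x := by ext <;> simp [P.ip_zero', P.cr_zero']
  left_distrib x y z := by
    ext
    · simp only [mul_r, add_r, add_v, P.ip_add']; ring
    · simp only [mul_v, add_v, add_r, P.cr_add']; module
  right_distrib x y z := by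
    ext
    · simp only [mul_r, add_r, add_v, P.ip_add]; ring
    · simp only [mul_v, add_v, add_r, P.cr_add]; module

theorem mul_comm_r (x y : H P) : (x * y).r = (y * x).r := by
  simp only [mul_r, P.ip_comm y.v x.v]; ring

theorem scal_comm (x y : H P) (h : x.v = 0) : x * y = y * x := by
  ext
  · exact mul_comm_r x y
  · simp [h, P.cr_zero, P.cr_zero']

/-- Scalars inside the algebra. -/
def sc (P : RP) : P.A →+* H P where
  toFun a := ⟨a, 0⟩
  map_one' := rfl
  map_mul' a b := by ext <;> simp [P.ip_zero, P.cr_zero]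
  map_zero' := rfl
  map_add' a b := by ext <;> simp

@[simp] theorem sc_r (a : P.A) : (sc P a).r = a := rfl
@[simp] theorem sc_v (a : P.A) : (sc P a).v = 0 := rfl

theorem five_eq : (5 : H P) = 0 := by
  rw [← map_ofNat (sc P) 5, P.five, map_zero]

theorem vec_cube (x : P.L) : (⟨0, x⟩ : H P) ^ 3 = 0 := by
  rw [pow_succ, pow_two]
  ext
  · simp [P.cr_self, P.ip_zero]
  · simp [P.cr_self, P.cr_zero, P.sq_smul]

theorem pow_five (x : H P) : x ^ 5 = sc P (x.r ^ 5) := by
  have e : x = sc P x.r + ⟨0, x.v⟩ := by ext <;> simp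
  have hc : Commute (sc P x.r) (⟨0, x.v⟩ : H P) := scal_comm _ _ rfl
  have h3 := vec_cube x.v
  have h5 : (5 : H P) = 0 := five_eq
  have h10 : (10 : H P) = 0 := by
    have : (10 : H P) = 5 + 5 := by norm_num
    rw [this, h5, add_zero]
  rw [map_pow]
  conv_lhs => rw [e]
  generalize sc P x.r = p at *
  generalize (⟨0, x.v⟩ : H P) = q at *
  have h4 : q ^ 4 = 0 := by rw [pow_succ, h3, zero_mul]
  have h6 : q ^ 5 = 0 := by rw [pow_succ, h4, zero_mul]
  rw [hc.add_pow]
  simp [Finset.sum_range_succ, Nat.choose, h3, h4, h6, h5, h10]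

theorem pow_five_eq_one (G : Good P) (x : H P) (h : G.aug x.r = 1) : x ^ 5 = 1 := by
  have h1 : (x.r - 1) ^ 5 = 0 := G.frob _ (by rw [map_sub, h, map_one, sub_self])
  have h2 : x.r ^ 5 = 1 := by
    linear_combination h1 + (x.r ^ 4 - 2 * x.r ^ 3 + 2 * x.r ^ 2 - x.r) * P.five
  rw [pow_five, h2, map_one]

theorem conj_r (q : (H P)ˣ) (a : H P) : (↑q⁻¹ * a * ↑q : H P).r = a.r := by
  rw [mul_comm_r, ← mul_assoc, Units.mul_inv, one_mul]

theorem ip_eq (a b : H P) : P.ip a.v b.v = a.r * b.r - (a * b).r := by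
  rw [mul_r]; ring

theorem ip_conj (q : (H P)ˣ) (a b : H P) :
    P.ip (↑q⁻¹ * a * ↑q : H P).v b.v = P.ip a.v (↑q * b * ↑q⁻¹ : H P).v := by
  have h := conj_r q⁻¹ b
  rw [inv_inv] at h
  rw [ip_eq, ip_eq, conj_r, h]
  congr 1
  rw [mul_assoc, mul_assoc, mul_comm_r]
  simp only [mul_assoc]

/-- Functoriality. -/
def map {P Q : RP} (f : Hom P Q) : H P →+* H Q where
  toFun x := ⟨f.fA x.r, f.fL x.v⟩
  map_one' := by ext <;> simp
  map_mul' a b := by ext <;> simp [f.smul, f.ip, f.cr]
  map_zero' := by ext <;> simp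
  map_add' a b := by ext <;> simp

@[simp] theorem map_r {P Q : RP} (f : Hom P Q) (x : H P) : (map f x).r = f.fA x.r := rfl
@[simp] theorem map_v {P Q : RP} (f : Hom P Q) (x : H P) : (map f x).v = f.fL x.v := rfl

/-- A derivation of the pair acting on the algebra. -/
def der (d : Der P) (x : H P) : H P := ⟨d.dA x.r, d.dL x.v⟩

@[simp] theorem der_r (d : Der P) (x : H P) : (der d x).r = d.dA x.r := rfl
@[simp] theorem der_v (d : Der P) (x : H P) : (der d x).v = d.dL x.v := rfl

theorem der_mul (d : Der P) (x y : H P) : der d (x * y) = der d x * y + x * der d y := by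
  ext
  · simp only [der_r, der_v, mul_r, add_r, map_sub, d.mul, d.ip]; ring
  · simp only [der_r, der_v, mul_v, add_v, map_add, d.smul, d.cr]; module

theorem der_one (d : Der P) : der d 1 = 0 := by
  ext <;> simp [d.one]

/-- Left logarithmic derivative. -/
def lth (d : Der P) (g : (H P)ˣ) : H P := ↑g⁻¹ * der d ↑g

/-- Right logarithmic derivative. -/
def rth (d : Der P) (g : (H P)ˣ) : H P := der d ↑g * ↑g⁻¹

theorem lth_mul (d : Der P) (g h : (H P)ˣ) :
    lth d (g * h) = ↑h⁻¹ * lth d g * ↑h + lth d h := by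
  simp only [lth, mul_inv_rev, Units.val_mul, der_mul, mul_add, mul_assoc, Units.inv_mul_cancel_left]

theorem rth_mul (d : Der P) (g h : (H P)ˣ) :
    rth d (g * h) = rth d g + ↑g * rth d h * ↑g⁻¹ := by
  simp only [rth, mul_inv_rev, Units.val_mul, der_mul, add_mul, mul_assoc, Units.mul_inv_cancel_left]

theorem lth_one (d : Der P) : lth d 1 = 0 := by simp [lth, der_one]

theorem rth_one (d : Der P) : rth d 1 = 0 := by simp [rth, der_one]

theorem lth_scal (d : Der P) (g : (H P)ˣ) (h : (g : H P).v = 0) : (lth d g).v = 0 := by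
  have h1 : ((↑g⁻¹ : H P) * ↑g).v = 0 := by simp
  have h2 : ((↑g⁻¹ : H P) * ↑g).r = 1 := by simp
  rw [mul_v, h, P.cr_zero', smul_zero, zero_add, add_zero] at h1
  rw [mul_r, h, P.ip_zero', sub_zero] at h2
  have h3 : (↑g⁻¹ : H P).v = 0 := by
    rw [← one_smul P.A (↑g⁻¹ : H P).v, ← h2, mul_smul, h1, smul_zero]
  simp [lth, h, h3, P.cr_zero]

end H

end Pool.Agent.P.MP_29765e_al
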